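import Mathlib
import Pool.Agent.H936R2.SH.Basic

/-!
Words with long periodic runs: definitions.
-/

set_option autoImplicit false

namespace Pool.Agent.H668R2.SR

open Pool.Agent.H936R2.SH

/-- A Boolean system over `Z/d` with values in `(Z/2)^X`. -/
structure IsSys (X : Type) (d : ℕ) (t : ℕ → X → ZMod 2) (Y : Finset ℕ) : Prop where
  hd : 0 < d
  hper : ∀ n, t (n + d) = t n
  hY : ∀ y ∈ Y, y < d
  h0 : 0 ∈ Y
  ht0 : t 0 = 0
  hcov : ∀ (l : ℕ) (j : X → ZMod 2), ∃ y ∈ Y, t y = j ∧ ∃ z, z < d ∧ (y + z) % d = l % d ∧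
    ∀ y' ∈ Y, t (y' + z) = t y' + t z

/-- The data of the construction. -/
structure Cfg (α X : Type) where
  step : X → α → X
  D : ℕ
  ω : ℕ
  d : ℕ
  t : ℕ → X → ZMod 2
  Y : Finset ℕ
  hD : D < ω
  sys : IsSys X d t Y
  hpow : ∀ (a : α) (n : ℕ) (x : X), ω ≤ n →
    (List.replicate (n + ω) a).foldl step x = (List.replicate n a).foldl step x

namespace Cfg

variable {α X : Type} (c : Cfg α X)

/-- Pull back of a function along a word. -/
def pull (w : List α) (j : X → ZMod 2) : X → ZMod 2 := fun x => j (w.foldl c.step x)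

theorem pull_nil (j : X → ZMod 2) : c.pull [] j = j := rfl

theorem pull_append (u v : List α) (j : X → ZMod 2) :
    c.pull (u ++ v) j = c.pull u (c.pull v j) := by
  funext x
  simp [pull, List.foldl_append]

theorem pull_add (u : List α) (j k : X → ZMod 2) :
    c.pull u (j + k) = c.pull u j + c.pull u k := rfl

theorem pull_zero (u : List α) : c.pull u 0 = 0 := rfl

/-- The period of the run words. -/
def M : ℕ := c.ω * c.d

/-- Admissible decoding offsets. -/
def Val (z : ℕ) : Prop := ∀ y ∈ c.Y, c.t (y + z) = c.t y + c.t z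

/-- Links between two runs. -/
def Link (a : α) (w : List α) (b : α) : Prop :=
  w.length ≤ c.D ∧ w.head? ≠ some a ∧ w.getLast? ≠ some b ∧ (w = [] → a ≠ b)

/-- The finite language whose star is used. -/
def K : Set (List α) :=
  {u | (∃ a, u = List.replicate c.M a) ∨
    ∃ a w b y z, u = List.replicate (c.M + c.ω * y) a ++ w ++ List.replicate (c.M + z) b ∧
      y ∈ c.Y ∧ z < c.M ∧ c.Val (z / c.ω) ∧ c.Link a w b ∧
      c.t y = c.pull (w ++ List.replicate (c.M + z) b) (c.t (z / c.ω))}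

/-- Left ends. -/
def Zs (k : X → ZMod 2) : Set (List α) :=
  {u | ∃ w b z, u = w ++ List.replicate (c.M + z) b ∧ w.length ≤ c.D ∧ w.getLast? ≠ some b ∧
    z < c.M ∧ c.Val (z / c.ω) ∧ k = c.pull (w ++ List.replicate (c.M + z) b) (c.t (z / c.ω))}

/-- Right ends. -/
def Ys (j : X → ZMod 2) : Set (List α) :=
  {u | ∃ a w y, u = List.replicate (c.M + c.ω * y) a ++ w ∧ w.length ≤ c.D ∧ w.head? ≠ some a ∧
    y ∈ c.Y ∧ c.t y = c.pull w j}

end Cfg

/-- The word described by a list of runs and gaps. -/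
def text {α : Type} : List (α × ℕ × List α) → List α
  | [] => []
  | (a, n, w) :: l => List.replicate n a ++ (w ++ text l)

/-- The first run letter. -/
def hd {α : Type} : List (α × ℕ × List α) → Option α
  | [] => none
  | (a, _, _) :: _ => some a

/-- Normalised descriptions: runs of length at least `N`, gaps of length at most `D`,
runs are maximal. -/
def Good {α : Type} (N D : ℕ) : List (α × ℕ × List α) → Prop
  | [] => True
  | (a, n, w) :: l => N ≤ n ∧ w.length ≤ D ∧ w.head? ≠ some a ∧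
      (∀ b, hd l = some b → w.getLast? ≠ some b ∧ (w = [] → a ≠ b)) ∧ Good N D l

/-- The affine transformation attached to a description. -/
def Cfg.Cv {α X : Type} (c : Cfg α X) : List (α × ℕ × List α) → (X → ZMod 2) → (X → ZMod 2)
  | [], j => j
  | (a, n, w) :: l, j => c.pull (List.replicate n a) (c.pull w (c.Cv l j) + c.t (n / c.ω))

/-- Words built from gaps of length at most `D` and powers `u ^ n` with `|u| ≤ P`, `n ≥ N`. -/
inductive W {α : Type} (D P N : ℕ) : List α → Prop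
  | base (w : List α) : w.length ≤ D → W D P N w
  | step (w u v : List α) (n : ℕ) : w.length ≤ D → u ≠ [] → u.length ≤ P → N ≤ n →
      W D P N v → W D P N (w ++ ((List.replicate n u).flatten ++ v))

/-! ### Statements -/

def S_sys : Prop := ∀ (X : Type) [Finite X], ∃ d t Y, IsSys X d t Y

/-- The D-surface table: a configuration on `ℤ³` which changes sign under the translations by `4`
in each direction, such that each cell has an axis along which both neighbours agree with it. -/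
def S_tab : Prop := ∃ Φ : ℤ → ℤ → ℤ → ZMod 2,
  (∀ x y z, Φ (x + 4) y z = Φ x y z + 1) ∧ (∀ x y z, Φ x (y + 4) z = Φ x y z + 1) ∧
  (∀ x y z, Φ x y (z + 4) = Φ x y z + 1) ∧ Φ 0 0 0 = 0 ∧
  ∀ x y z, (Φ (x + 1) y z = Φ x y z ∧ Φ (x - 1) y z = Φ x y z) ∨
    (Φ x (y + 1) z = Φ x y z ∧ Φ x (y - 1) z = Φ x y z) ∨
    (Φ x y (z + 1) = Φ x y z ∧ Φ x y (z - 1) = Φ x y z)

/-- One coordinate: a function on `(Z/N1) x (Z/N2) x (Z/N3)`, all `Ni` odd. -/
def IsCoord (N1 N2 N3 : ℕ) (G : ℕ → ℕ → ℕ → ZMod 2) : Prop :=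
  (∀ x y z, G (x + N1) y z = G x y z) ∧ (∀ x y z, G x (y + N2) z = G x y z) ∧
  (∀ x y z, G x y (z + N3) = G x y z) ∧
  (∀ b1 < 2, ∀ b2 < 2, ∀ b3 < 2, G b1 b2 b3 = ((b1 + b2 + b3 : ℕ) : ZMod 2)) ∧
  ∀ (x y z : ℕ) (ε : ZMod 2), ∃ a1 < 2, ∃ a2 < 2, ∃ a3 < 2,
    ((a1 + a2 + a3 : ℕ) : ZMod 2) = ε ∧ ∃ g : ZMod 2, ∀ b1 < 2, ∀ b2 < 2, ∀ b3 < 2,
      G (x + 1 - a1 + b1) (y + 1 - a2 + b2) (z + 1 - a3 + b3) =
        g + ((b1 + b2 + b3 : ℕ) : ZMod 2)

def S_coord : Prop := ∀ N1 N2 N3 : ℕ, 8 ≤ N1 → 8 ≤ N2 → 8 ≤ N3 → Odd N1 → Odd N2 → Odd N3 →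
  ∃ G, IsCoord N1 N2 N3 G

def S_pow : Prop := ∀ (α X : Type) [Finite X] (step : X → α → X) (D : ℕ),
  ∃ ω, D < ω ∧ ∀ (a : α) (n : ℕ) (x : X), ω ≤ n →
    (List.replicate (n + ω) a).foldl step x = (List.replicate n a).foldl step x

def S_sound : Prop := ∀ (α X : Type) (c : Cfg α X) (a : α) (n : ℕ) (w : List α)
  (l : List (α × ℕ × List α)) (j : X → ZMod 2) (q : ℕ), Good (4 * c.M) c.D ((a, n, w) :: l) →
  0 < q → q ≤ n → List.replicate q a ++ (w ++ text l) ∈ cat (st c.K) (c.Ys j) →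
  ∃ y ∈ c.Y, q % c.M = c.ω * y ∧ c.t y = c.pull w (c.Cv l j)

def S_compl : Prop := ∀ (α X : Type) (c : Cfg α X) (l : List (α × ℕ × List α))
  (a : α) (n : ℕ) (w : List α) (j : X → ZMod 2) (y κ : ℕ), Good (4 * c.M) c.D ((a, n, w) :: l) →
  y ∈ c.Y → c.t y = c.pull w (c.Cv l j) →
  List.replicate (c.M + c.ω * y + κ * c.M) a ++ (w ++ text l) ∈ cat (st c.K) (c.Ys j)

def S_main : Prop := ∀ (α X : Type) (c : Cfg α X) (a : α) (n : ℕ) (w w0 : List α)
  (l : List (α × ℕ × List α)) (j k : X → ZMod 2), Good (4 * c.M) c.D ((a, n, w) :: l) →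
  w0.length ≤ c.D → w0.getLast? ≠ some a →
  (w0 ++ text ((a, n, w) :: l) ∈ cat (cat (c.Zs k) (st c.K)) (c.Ys j) ↔
    k = c.pull w0 (c.Cv ((a, n, w) :: l) j))

/-- Normalisation: words in `W D 1 N` have normalised descriptions. -/
def S_norm : Prop := ∀ (α : Type) (D N : ℕ) (v : List α), 0 < N → W D 1 N v →
  v.length ≤ D ∨ ∃ (w0 : List α) (a : α) (n : ℕ) (w : List α) (l : List (α × ℕ × List α)),
    v = w0 ++ text ((a, n, w) :: l) ∧ w0.length ≤ D ∧ w0.getLast? ≠ some a ∧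
    Good N D ((a, n, w) :: l)

/-- Block coding: cutting a word of `W D P N` into blocks of length `P!`. -/
def S_block : Prop := ∀ (α : Type) (D P N : ℕ) (v : List α), W D P (P.factorial * (N + 2)) v →
  ∃ (bs : List (List.Vector α P.factorial)) (r : List α),
    v = (bs.map List.Vector.toList).flatten ++ r ∧ r.length < P.factorial ∧ W (D + 2) 1 N bs

/-- The final statement. -/
def S_result : Prop := ∀ (α σ : Type) [Finite α] [Finite σ] (step : σ → α → σ) (s : σ)
  (F : Set σ) (D P : ℕ), ∃ N₀ : ℕ, ∀ N, N₀ ≤ N →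
    (∃ L' : Set (List α), HS 1 L' ∧ ∀ v, W D P N v → (v ∈ L' ↔ v.foldl step s ∈ F)) ∧
    HS 1 {v : List α | v.foldl step s ∈ F ∧ W D 1 N v}

end Pool.Agent.H668R2.SR
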