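import Mathlib
import Pool.Agent.H668R2.SR.Defs

set_option autoImplicit false

namespace Pool.Agent.H668R2.SR

/-- a word of length `L` as a vector -/
def Block_mk {α : Type} {L : ℕ} (x : List α) (h : x.length = L) : List.Vector α L := ⟨x, h⟩

theorem Block_mk_toList {α : Type} {L : ℕ} (x : List α) (h : x.length = L) :
    (Block_mk x h).toList = x := rfl

/-- cutting a word into blocks of length `L` -/
theorem Block_cut {α : Type} (L : ℕ) (hL : 0 < L) : ∀ (m : ℕ) (x : List α), x.length = m →
    ∃ (bs : List (List.Vector α L)) (r : List α),
      x = (bs.map List.Vector.toList).flatten ++ r ∧ r.length < L ∧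
        bs.length * L + r.length = x.length := by
  intro m
  induction m using Nat.strong_induction_on with
  | _ m ih =>
    intro x hx
    by_cases h : x.length < L
    · exact ⟨[], x, by simp, h, by simp⟩
    · push Not at h
      obtain ⟨bs, r, h1, h2, h3⟩ := ih (x.drop L).length (by rw [List.length_drop]; omega)
        (x.drop L) rfl
      have h4 : (x.take L).length = L := by rw [List.length_take]; omega
      refine ⟨Block_mk (x.take L) h4 :: bs, r, ?_, h2, ?_⟩
      · rw [List.map_cons, List.flatten_cons, List.append_assoc, ← h1, Block_mk_toList]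
        exact (List.take_append_drop L x).symm
      · rw [List.length_cons]
        rw [List.length_drop] at h3
        have h5 : (bs.length + 1) * L = bs.length * L + L := by ring
        omega

theorem Block_rot {α : Type} (U1 U2 : List α) : ∀ q : ℕ,
    (List.replicate (q + 1) (U1 ++ U2)).flatten =
      U1 ++ ((List.replicate q (U2 ++ U1)).flatten ++ U2) := by
  intro q
  induction q with
  | zero => simp
  | succ q ih =>
    rw [List.replicate_succ, List.flatten_cons, ih, List.replicate_succ (n := q),
      List.flatten_cons]
    simp only [List.append_assoc]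

theorem Block_pow {α : Type} (u : List α) (k m : ℕ) : ∀ q : ℕ,
    (List.replicate (k * q + m) u).flatten =
      (List.replicate q ((List.replicate k u).flatten)).flatten ++ (List.replicate m u).flatten := by
  intro q
  induction q with
  | zero => simp
  | succ q ih =>
    have h : k * (q + 1) + m = k + (k * q + m) := by ring
    rw [h, List.replicate_add, List.flatten_append, ih, List.replicate_succ, List.flatten_cons,
      List.append_assoc]

theorem Block_single {α : Type} {L : ℕ} (c : List.Vector α L) (q : ℕ) :
    (((List.replicate q [c]).flatten).map List.Vector.toList).flatten =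
      (List.replicate q c.toList).flatten := by
  induction q with
  | zero => simp
  | succ q ih =>
    rw [List.replicate_succ, List.flatten_cons, List.map_append, List.flatten_append, ih,
      List.replicate_succ, List.flatten_cons]
    simp

theorem Block_carry {α : Type} (D P N : ℕ) (v : List α)
    (hv : W D P (P.factorial * (N + 2)) v) : ∀ r0 : List α, r0.length < 2 * P.factorial →
      ∃ (bs : List (List.Vector α P.factorial)) (r : List α),
        r0 ++ v = (bs.map List.Vector.toList).flatten ++ r ∧ r.length < P.factorial ∧
          W (D + 2) 1 N bs := by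
  have hL : 0 < P.factorial := Nat.factorial_pos P
  induction hv with
  | base w hw =>
    intro r0 hr0
    obtain ⟨bs, r, h1, h2, h3⟩ := Block_cut P.factorial hL _ (r0 ++ w) rfl
    refine ⟨bs, r, h1, h2, W.base bs ?_⟩
    rw [List.length_append] at h3
    by_contra hcon
    push Not at hcon
    have h4 : (D + 3) * P.factorial ≤ bs.length * P.factorial := Nat.mul_le_mul_right _ hcon
    have h5 : D ≤ D * P.factorial := Nat.le_mul_of_pos_right D hL
    have h6 : (D + 3) * P.factorial = D * P.factorial + 3 * P.factorial := by ring
    omega
  | step w u v n hw hu huP hn hv ih =>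
    intro r0 hr0
    have hu1 : 0 < u.length := List.length_pos_of_ne_nil hu
    obtain ⟨k, hk⟩ : u.length ∣ P.factorial := Nat.dvd_factorial hu1 huP
    have hk0 : 0 < k := by
      rcases Nat.eq_zero_or_pos k with h | h
      · rw [h, mul_zero] at hk; omega
      · exact h
    have hkL : k ≤ P.factorial := by rw [hk]; exact Nat.le_mul_of_pos_left k hu1
    have hlen : ∀ m : ℕ, ((List.replicate m u).flatten).length = m * u.length := by
      intro m
      simp
    have hUl : ((List.replicate k u).flatten).length = P.factorial := by
      rw [hlen, hk, mul_comm]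
    have hnk : n = k * (n / k) + n % k := (Nat.div_add_mod n k).symm
    have hq : N + 2 ≤ n / k := by
      rw [Nat.le_div_iff_mul_le hk0]
      calc (N + 2) * k ≤ (N + 2) * P.factorial := Nat.mul_le_mul_left _ hkL
        _ = P.factorial * (N + 2) := by ring
        _ ≤ n := hn
    obtain ⟨q, hq1⟩ : ∃ q, n / k = q + 1 := ⟨n / k - 1, by omega⟩
    have hqN : N ≤ q := by omega
    set L := P.factorial with hLdef
    set U := (List.replicate k u).flatten with hU
    set T := (List.replicate (n % k) u).flatten with hT
    have hTl : T.length < L := by
      rw [hT, hlen, hk, mul_comm]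
      exact Nat.mul_lt_mul_of_pos_left (Nat.mod_lt n hk0) hu1
    -- the number of letters needed
    obtain ⟨p, hp1, hp2⟩ : ∃ p, p < L ∧ L ∣ (r0 ++ w).length + p := by
      refine ⟨(L - (r0 ++ w).length % L) % L, Nat.mod_lt _ hL, ?_⟩
      have h1 := Nat.mod_lt (r0 ++ w).length hL
      have h2 := Nat.div_add_mod (r0 ++ w).length L
      by_cases h3 : (r0 ++ w).length % L = 0
      · rw [h3, Nat.sub_zero, Nat.mod_self, add_zero]
        exact Nat.dvd_of_mod_eq_zero h3
      · rw [Nat.mod_eq_of_lt (by omega)]
        refine ⟨(r0 ++ w).length / L + 1, ?_⟩
        rw [mul_add, mul_one]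
        omega
    have hU12 : U = U.take p ++ U.drop p := (List.take_append_drop p U).symm
    have hpow : (List.replicate n u).flatten =
        U.take p ++ ((List.replicate q (U.drop p ++ U.take p)).flatten ++ U.drop p) ++ T := by
      rw [← Block_rot, ← hU12, ← hq1, hT, hU, ← Block_pow, ← hnk]
    have hcl : (U.drop p ++ U.take p).length = L := by
      rw [List.length_append, List.length_drop, List.length_take, hUl]
      omega
    obtain ⟨bs0, r1, h1, h2, h3⟩ := Block_cut L hL _ ((r0 ++ w) ++ U.take p) rfl
    have hxl : ((r0 ++ w) ++ U.take p).length = (r0 ++ w).length + p := by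
      rw [List.length_append, List.length_take, hUl]
      omega
    have hr1 : r1 = [] := by
      have h4 : L ∣ bs0.length * L + r1.length := by rw [h3, hxl]; exact hp2
      have h5 : L ∣ r1.length := (Nat.dvd_add_right (Dvd.intro_left _ rfl)).mp h4
      have h6 : r1.length = 0 := Nat.eq_zero_of_dvd_of_lt h5 h2
      exact List.length_eq_zero_iff.mp h6
    rw [hr1, List.append_nil] at h1
    rw [hr1, List.length_nil, add_zero, hxl, List.length_append] at h3
    have hbs0 : bs0.length ≤ D + 2 := by
      by_contra hcon
      push Not at hcon
      have h4 : (D + 3) * L ≤ bs0.length * L := Nat.mul_le_mul_right _ hcon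
      have h5 : D ≤ D * L := Nat.le_mul_of_pos_right D hL
      have h6 : (D + 3) * L = D * L + 3 * L := by ring
      omega
    obtain ⟨bs', r, h4, h5, h6⟩ := ih (U.drop p ++ T) (by
      rw [List.length_append, List.length_drop, hUl]
      omega)
    refine ⟨bs0 ++ ((List.replicate q [Block_mk (U.drop p ++ U.take p) hcl]).flatten ++
      bs'), r, ?_, h5, W.step bs0 [_] bs' q hbs0 (by simp) (by simp) hqN h6⟩
    rw [List.map_append, List.flatten_append, List.map_append, List.flatten_append, Block_single,
      ← h1, hpow, Block_mk_toList]
    simp only [List.append_assoc] at h4 ⊢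
    rw [h4]

theorem pBlock : S_block := by
  intro α D P N v hv
  obtain ⟨bs, r, h1, h2, h3⟩ := Block_carry D P N v hv [] (by
    have := Nat.factorial_pos P
    simp only [List.length_nil]
    omega)
  exact ⟨bs, r, by simpa using h1, h2, h3⟩

end Pool.Agent.H668R2.SR
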