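import Mathlib
import Pool.Agent.H668R2.SR.Defs

set_option autoImplicit false

namespace Pool.Agent.H668R2.SR

open Pool.Agent.H936R2.SH

namespace ComplAux

variable {α X : Type}

theorem cat_st_cons {K Y : Set (List α)} {u v : List α} (hu : u ∈ K) (hv : v ∈ cat (st K) Y) :
    u ++ v ∈ cat (st K) Y := by
  obtain ⟨x, hx, y, hy, rfl⟩ := hv
  refine ⟨u ++ x, st_cons hu hx, y, hy, ?_⟩
  simp

theorem cat_st_copies {K Y : Set (List α)} {u v : List α} (hu : u ∈ K) (hv : v ∈ cat (st K) Y)
    (κ : ℕ) : (List.replicate κ u).flatten ++ v ∈ cat (st K) Y := by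
  induction κ with
  | zero => simpa using hv
  | succ κ ih =>
    rw [List.replicate_succ, List.flatten_cons, List.append_assoc]
    exact cat_st_cons hu ih

theorem flatten_replicate (M κ : ℕ) (a : α) :
    (List.replicate κ (List.replicate M a)).flatten = List.replicate (κ * M) a := by
  induction κ with
  | zero => simp
  | succ κ ih =>
    rw [List.replicate_succ, List.flatten_cons, ih, List.replicate_append_replicate]
    congr 1
    ring

/-- Copies of the period word in front. -/
theorem copies (c : Cfg α X) {Y : Set (List α)} (a : α) (p κ : ℕ) (v : List α)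
    (h : List.replicate p a ++ v ∈ cat (st c.K) Y) :
    List.replicate (p + κ * c.M) a ++ v ∈ cat (st c.K) Y := by
  have h1 := cat_st_copies (u := List.replicate c.M a) (Or.inl ⟨a, rfl⟩) h κ
  rw [flatten_replicate, ← List.append_assoc, List.replicate_append_replicate] at h1
  rw [add_comm]
  exact h1

theorem period (c : Cfg α X) (n k : ℕ) : c.t (n + c.d * k) = c.t n := by
  induction k with
  | zero => simp
  | succ k ih =>
    rw [Nat.mul_succ, ← add_assoc, c.sys.hper, ih]

theorem period_mod (c : Cfg α X) (n : ℕ) : c.t (n % c.d) = c.t n := by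
  conv_rhs => rw [← Nat.mod_add_div n c.d]
  rw [period]

theorem pow_mul (c : Cfg α X) (b : α) (n k : ℕ) (x : X) (hn : c.ω ≤ n) :
    (List.replicate (n + c.ω * k) b).foldl c.step x = (List.replicate n b).foldl c.step x := by
  induction k with
  | zero => simp
  | succ k ih =>
    rw [Nat.mul_succ, ← add_assoc, c.hpow b (n + c.ω * k) x (by omega), ih]

theorem pull_pow (c : Cfg α X) (b : α) (n k : ℕ) (j : X → ZMod 2) (hn : c.ω ≤ n) :
    c.pull (List.replicate (n + c.ω * k) b) j = c.pull (List.replicate n b) j := by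
  funext x
  unfold Cfg.pull
  rw [pow_mul c b n k x hn]

theorem add_self' (j : X → ZMod 2) : j + j = 0 := by
  funext x
  simp only [Pi.add_apply, Pi.zero_apply]
  exact CharTwo.add_self_eq_zero _

/-- The arithmetic of the decoding offset. -/
theorem offset (ω d m z' y2 : ℕ) (hω : 0 < ω) (hm : 4 * (ω * d) ≤ m) (hz : z' < d)
    (hy : y2 < d) (h : (y2 + z') % d = (m / ω) % d) :
    ∃ k, m = (ω * d + (ω * z' + m % ω)) + (ω * d + ω * y2 + k * (ω * d)) := by
  have h1 : ω * (m / ω) + m % ω = m := Nat.div_add_mod m ω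
  have hr : m % ω < ω := Nat.mod_lt _ hω
  -- the quotients
  have h2 : y2 + z' ≤ m / ω := by
    have h3 : 4 * d ≤ m / ω := by
      rw [Nat.le_div_iff_mul_le hω]
      calc 4 * d * ω = 4 * (ω * d) := by ring
        _ ≤ m := hm
    omega
  have h4 : d ∣ m / ω - (y2 + z') := (Nat.modEq_iff_dvd' h2).1 h
  obtain ⟨q, hq⟩ := h4
  have h5 : m / ω = y2 + z' + d * q := by omega
  have h6 : 2 ≤ q := by
    have h3 : 4 * d ≤ m / ω := by
      rw [Nat.le_div_iff_mul_le hω]
      calc 4 * d * ω = 4 * (ω * d) := by ring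
        _ ≤ m := hm
    by_contra hc
    have : q ≤ 1 := by omega
    have : d * q ≤ d * 1 := Nat.mul_le_mul_left d this
    omega
  obtain ⟨k, rfl⟩ := Nat.exists_eq_add_of_le h6
  refine ⟨k, ?_⟩
  conv_lhs => rw [← h1, h5]
  ring

end ComplAux

open ComplAux

theorem pCompl : S_compl := by
  intro α X c l
  induction l with
  | nil =>
    intro a n w j y κ hG hy ht
    apply copies
    refine ⟨[], st_nil _, List.replicate (c.M + c.ω * y) a ++ w, ?_, ?_⟩
    · exact ⟨a, w, y, rfl, hG.2.1, hG.2.2.1, hy, ht⟩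
    · simp [text]
  | cons r l2 ih =>
    obtain ⟨b, m, w2⟩ := r
    intro a n w j y κ hG hy ht
    apply copies
    obtain ⟨-, hw, hwa, hlink, hG2⟩ := hG
    obtain ⟨hwb, hab⟩ := hlink b rfl
    have hm : 4 * c.M ≤ m := hG2.1
    have hω : 0 < c.ω := lt_of_le_of_lt (Nat.zero_le _) c.hD
    have hd := c.sys.hd
    have hMω : c.ω ≤ c.M := Nat.le_mul_of_pos_right _ hd
    obtain ⟨y2, hy2, hty2, z', hz', hmod, hval⟩ := c.sys.hcov (m / c.ω) (c.pull w2 (c.Cv l2 j))
    obtain ⟨k, hk⟩ := offset c.ω c.d m z' y2 hω hm hz' (c.sys.hY y2 hy2) hmod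
    have hIH := ih b m w2 j y2 k hG2 hy2 hty2
    set z := c.ω * z' + m % c.ω with hz
    have hzω : z / c.ω = z' := by
      rw [hz, Nat.mul_add_div hω, Nat.div_eq_of_lt (Nat.mod_lt _ hω), add_zero]
    have hzM : z < c.M := by
      have h1 : m % c.ω < c.ω := Nat.mod_lt _ hω
      calc z < c.ω * z' + c.ω := by omega
        _ = c.ω * (z' + 1) := by ring
        _ ≤ c.ω * c.d := Nat.mul_le_mul_left _ hz'
    have hk' : m = (c.M + z) + (c.M + c.ω * y2 + k * c.M) := hk
    -- the crossing word
    have htm : c.t (m / c.ω) = c.t y2 + c.t z' := by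
      rw [← hval y2 hy2, ← period_mod c (m / c.ω), ← hmod, period_mod]
    have hcross : List.replicate (c.M + c.ω * y) a ++ w ++ List.replicate (c.M + z) b ∈ c.K := by
      refine Or.inr ⟨a, w, b, y, z, rfl, hy, hzM, ?_, ⟨hw, hwa, hwb, hab⟩, ?_⟩
      · rw [hzω]
        exact hval
      · rw [hzω, c.pull_append, ht]
        congr 1
        show c.pull (List.replicate m b) (c.pull w2 (c.Cv l2 j) + c.t (m / c.ω)) = _
        rw [htm, ← hty2, ← add_assoc, add_self', zero_add]
        have e : m = (c.M + z) + c.ω * (c.d + y2 + k * c.d) := by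
          rw [hk']
          unfold Cfg.M
          ring
        conv_lhs => rw [e]
        rw [pull_pow c b _ _ _ (by omega)]
    have hfin := cat_st_cons hcross hIH
    have e2 : List.replicate (c.M + c.ω * y) a ++ (w ++ text ((b, m, w2) :: l2)) =
        List.replicate (c.M + c.ω * y) a ++ w ++ List.replicate (c.M + z) b ++
          (List.replicate (c.M + c.ω * y2 + k * c.M) b ++ (w2 ++ text l2)) := by
      show List.replicate (c.M + c.ω * y) a ++ (w ++ (List.replicate m b ++ (w2 ++ text l2))) = _
      have e3 : List.replicate m b = List.replicate (c.M + z) b ++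
          List.replicate (c.M + c.ω * y2 + k * c.M) b := by
        rw [List.replicate_append_replicate, ← hk']
      rw [e3]
      simp only [List.append_assoc]
    rw [e2]
    exact hfin

end Pool.Agent.H668R2.SR
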