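import Mathlib
import Pool.Agent.H668R2.SR.Defs

set_option autoImplicit false

namespace Pool.Agent.H668R2.SR

open Pool.Agent.H936R2.SH

namespace CoordAux

/-- The number of the cell of `x` (cells of lengths `2, 2, 2, N - 6`). -/
def kap (N x : ℕ) : ℤ := 4 * ((x / N : ℕ) : ℤ) + ((min ((x % N) / 2) 3 : ℕ) : ℤ)

theorem kap_eq {N q r : ℕ} (h : r < N) :
    kap N (N * q + r) = 4 * (q : ℤ) + ((min (r / 2) 3 : ℕ) : ℤ) := by
  unfold kap
  rw [Nat.mul_add_div (by omega), Nat.div_eq_of_lt h, Nat.mul_add_mod, Nat.mod_eq_of_lt h,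
    add_zero]

theorem kap_add {N : ℕ} (hN : 8 ≤ N) (x : ℕ) : kap N (x + N) = kap N x + 4 := by
  unfold kap
  rw [Nat.add_div_right _ (by omega), Nat.add_mod_right]
  push_cast
  ring

theorem kap_small {N b : ℕ} (hN : 8 ≤ N) (hb : b < 2) : kap N b = 0 := by
  have h := kap_eq (N := N) (q := 0) (r := b) (by omega)
  rw [Nat.mul_zero, Nat.zero_add] at h
  rw [h]
  have : b / 2 = 0 := by omega
  simp [this]

/-- Three consecutive values. -/
theorem kap_three {N : ℕ} (hN : 8 ≤ N) (x : ℕ) :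
    (kap N (x + 1) = kap N x ∨ kap N (x + 1) = kap N x + 1) ∧
    (kap N (x + 2) = kap N (x + 1) ∨ kap N (x + 2) = kap N (x + 1) + 1) ∧
    (kap N (x + 2) = kap N (x + 1) ∨ kap N (x + 1) = kap N x) := by
  obtain ⟨q, r, hr, rfl⟩ : ∃ q r, r < N ∧ x = N * q + r :=
    ⟨x / N, x % N, Nat.mod_lt _ (by omega), (Nat.div_add_mod x N).symm⟩
  have e0 := kap_eq (q := q) hr
  have e1 : kap N (N * q + r + 1) = if r + 1 < N then 4 * (q : ℤ) + ((min ((r + 1) / 2) 3 : ℕ) : ℤ)
      else 4 * ((q : ℤ) + 1) := by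
    split_ifs with h
    · rw [add_assoc, kap_eq h]
    · have e : N * q + r + 1 = N * (q + 1) + 0 := by
        rw [Nat.mul_succ]
        omega
      rw [e, kap_eq (by omega)]
      push_cast
      simp
  have e2 : kap N (N * q + r + 2) = if r + 2 < N then 4 * (q : ℤ) + ((min ((r + 2) / 2) 3 : ℕ) : ℤ)
      else 4 * ((q : ℤ) + 1) := by
    split_ifs with h
    · rw [add_assoc, kap_eq h]
    · have e : N * q + r + 2 = N * (q + 1) + (r + 2 - N) := by
        rw [Nat.mul_succ]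
        omega
      have h3 : (r + 2 - N) / 2 = 0 := by omega
      rw [e, kap_eq (by omega), h3]
      push_cast
      simp
  rw [e0, e1, e2]
  refine ⟨?_, ?_, ?_⟩ <;> split_ifs <;> omega

/-- The choice of the window in one coordinate. -/
theorem window {N : ℕ} (hN : 8 ≤ N) (x : ℕ) : ∃ a0 < 2,
    (∀ b < 2, kap N (x + 1 - a0 + b) = kap N (x + 1)) ∧
    ∀ a < 2, ∀ b < 2, kap N (x + 1 - a + b) = kap N (x + 1) ∨
      kap N (x + 1 - a + b) = kap N (x + 1) + 1 ∨ kap N (x + 1 - a + b) = kap N (x + 1) - 1 := by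
  obtain ⟨h1, h2, h3⟩ := kap_three hN x
  have h4 : ∀ a < 2, ∀ b < 2, kap N (x + 1 - a + b) = kap N (x + 1) ∨
      kap N (x + 1 - a + b) = kap N (x + 1) + 1 ∨ kap N (x + 1 - a + b) = kap N (x + 1) - 1 := by
    intro a ha b hb
    have : (a = 0 ∨ a = 1) ∧ (b = 0 ∨ b = 1) := by omega
    rcases this with ⟨rfl | rfl, rfl | rfl⟩
    · left; rfl
    · have e : x + 1 - 0 + 1 = x + 2 := by omega
      rw [e]
      omega
    · have e : x + 1 - 1 + 0 = x := by omega
      rw [e]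
      omega
    · left
      congr 1
  rcases h3 with h3 | h3
  · refine ⟨0, by omega, ?_, h4⟩
    intro b hb
    have : b = 0 ∨ b = 1 := by omega
    rcases this with rfl | rfl
    · rfl
    · have e : x + 1 - 0 + 1 = x + 2 := by omega
      rw [e, h3]
  · refine ⟨1, by omega, ?_, h4⟩
    intro b hb
    have : b = 0 ∨ b = 1 := by omega
    rcases this with rfl | rfl
    · have e : x + 1 - 1 + 0 = x := by omega
      rw [e, h3]
    · congr 1

theorem two_cases (a ε : ZMod 2) (h : a ≠ ε) : a + 1 = ε := by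
  revert a ε
  decide

theorem odd_cast {N : ℕ} (h : Odd N) : ((N : ℕ) : ZMod 2) = 1 := by
  obtain ⟨k, rfl⟩ := h
  push_cast
  have : (2 : ZMod 2) = 0 := by decide
  rw [this, zero_mul, zero_add]

theorem one_one : (1 : ZMod 2) + 1 = 0 := by decide

/-- flipping one of the offsets changes the parity -/
theorem flip_cast {a : ℕ} (h : a < 2) : (((1 - a : ℕ)) : ZMod 2) = (a : ZMod 2) + 1 := by
  have : a = 0 ∨ a = 1 := by omega
  rcases this with rfl | rfl
  · simp
  · simp [one_one]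

end CoordAux

open CoordAux

theorem pCoord (h1 : S_tab) : S_coord := by
  obtain ⟨Φ, p1, p2, p3, h0, hax⟩ := h1
  intro N1 N2 N3 g1 g2 g3 o1 o2 o3
  refine ⟨fun x y z => ((x + y + z : ℕ) : ZMod 2) + Φ (kap N1 x) (kap N2 y) (kap N3 z),
    ?_, ?_, ?_, ?_, ?_⟩
  · intro x y z
    simp only
    rw [kap_add g1, p1]
    push_cast
    rw [odd_cast o1]
    linear_combination one_one
  · intro x y z
    simp only
    rw [kap_add g2, p2]
    push_cast
    rw [odd_cast o2]
    linear_combination one_one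
  · intro x y z
    simp only
    rw [kap_add g3, p3]
    push_cast
    rw [odd_cast o3]
    linear_combination one_one
  · intro b1 hb1 b2 hb2 b3 hb3
    simp only
    rw [kap_small g1 hb1, kap_small g2 hb2, kap_small g3 hb3, h0, add_zero]
  · intro x y z ε
    obtain ⟨a1, ha1, u1, v1⟩ := window g1 x
    obtain ⟨a2, ha2, u2, v2⟩ := window g2 y
    obtain ⟨a3, ha3, u3, v3⟩ := window g3 z
    -- it suffices that `Φ` is constant on the window
    have fin : ∀ c1 < 2, ∀ c2 < 2, ∀ c3 < 2, ((c1 + c2 + c3 : ℕ) : ZMod 2) = ε →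
        (∀ b1 < 2, ∀ b2 < 2, ∀ b3 < 2, Φ (kap N1 (x + 1 - c1 + b1)) (kap N2 (y + 1 - c2 + b2))
          (kap N3 (z + 1 - c3 + b3)) = Φ (kap N1 (x + 1)) (kap N2 (y + 1)) (kap N3 (z + 1))) →
        ∃ a1 < 2, ∃ a2 < 2, ∃ a3 < 2, ((a1 + a2 + a3 : ℕ) : ZMod 2) = ε ∧
          ∃ g : ZMod 2, ∀ b1 < 2, ∀ b2 < 2, ∀ b3 < 2,
          ((x + 1 - a1 + b1 + (y + 1 - a2 + b2) + (z + 1 - a3 + b3) : ℕ) : ZMod 2) +
            Φ (kap N1 (x + 1 - a1 + b1)) (kap N2 (y + 1 - a2 + b2)) (kap N3 (z + 1 - a3 + b3)) =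
          g + ((b1 + b2 + b3 : ℕ) : ZMod 2) := by
      intro c1 hc1 c2 hc2 c3 hc3 hε hΦ
      refine ⟨c1, hc1, c2, hc2, c3, hc3, hε, ((x + 1 - c1 + (y + 1 - c2) + (z + 1 - c3) : ℕ) :
        ZMod 2) + Φ (kap N1 (x + 1)) (kap N2 (y + 1)) (kap N3 (z + 1)), ?_⟩
      intro b1 hb1 b2 hb2 b3 hb3
      rw [hΦ b1 hb1 b2 hb2 b3 hb3]
      have e : x + 1 - c1 + b1 + (y + 1 - c2 + b2) + (z + 1 - c3 + b3) =
          (x + 1 - c1 + (y + 1 - c2) + (z + 1 - c3)) + (b1 + b2 + b3) := by ring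
      rw [e, Nat.cast_add]
      ring
    by_cases hε : ((a1 + a2 + a3 : ℕ) : ZMod 2) = ε
    · exact fin a1 ha1 a2 ha2 a3 ha3 hε (fun b1 hb1 b2 hb2 b3 hb3 => by
        rw [u1 b1 hb1, u2 b2 hb2, u3 b3 hb3])
    · have hε' := two_cases _ _ hε
      rcases hax (kap N1 (x + 1)) (kap N2 (y + 1)) (kap N3 (z + 1)) with ⟨q1, q2⟩ | ⟨q1, q2⟩ |
        ⟨q1, q2⟩
      · refine fin (1 - a1) (by omega) a2 ha2 a3 ha3 ?_ (fun b1 hb1 b2 hb2 b3 hb3 => ?_)
        · rw [← hε']
          push_cast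
          rw [flip_cast ha1]
          ring
        · rw [u2 b2 hb2, u3 b3 hb3]
          rcases v1 (1 - a1) (by omega) b1 hb1 with h | h | h
          · rw [h]
          · rw [h, q1]
          · rw [h, q2]
      · refine fin a1 ha1 (1 - a2) (by omega) a3 ha3 ?_ (fun b1 hb1 b2 hb2 b3 hb3 => ?_)
        · rw [← hε']
          push_cast
          rw [flip_cast ha2]
          ring
        · rw [u1 b1 hb1, u3 b3 hb3]
          rcases v2 (1 - a2) (by omega) b2 hb2 with h | h | h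
          · rw [h]
          · rw [h, q1]
          · rw [h, q2]
      · refine fin a1 ha1 a2 ha2 (1 - a3) (by omega) ?_ (fun b1 hb1 b2 hb2 b3 hb3 => ?_)
        · rw [← hε']
          push_cast
          rw [flip_cast ha3]
          ring
        · rw [u1 b1 hb1, u2 b2 hb2]
          rcases v3 (1 - a3) (by omega) b3 hb3 with h | h | h
          · rw [h]
          · rw [h, q1]
          · rw [h, q2]

end Pool.Agent.H668R2.SR
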