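import Mathlib
import Pool.Agent.H668R2.SR.Defs

set_option autoImplicit false

namespace Pool.Agent.H668R2.SR

open Pool.Agent.H936R2.SH

/-! ### Finite languages -/

theorem HS_single {α : Type} (n : ℕ) (w : List α) : HS n {w} := by
  induction w with
  | nil => exact .eps n
  | cons a w ih =>
    have := (HS.letter n a).cat ih
    convert this using 1
    ext x
    constructor
    · rintro rfl
      exact ⟨[a], rfl, w, rfl, rfl⟩
    · rintro ⟨y, hy, z, hz, rfl⟩
      rw [Set.mem_singleton_iff] at hy hz
      subst hy hz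
      rfl

theorem HS_finite {α : Type} (n : ℕ) {S : Set (List α)} (hS : S.Finite) : HS n S := by
  classical
  have h : S = ⋃ x ∈ hS.toFinset, {x} := by
    ext x
    simp
  rw [h]
  exact HS.biUnion _ _ fun x _ => HS_single n x

/-! ### Block coding -/

section Coding

variable {α : Type} {L : ℕ}

/-- Decoding a word over the alphabet of blocks. -/
def flat (bs : List (List.Vector α L)) : List α := (bs.map List.Vector.toList).flatten

theorem flat_append (x y : List (List.Vector α L)) : flat (x ++ y) = flat x ++ flat y := by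
  simp [flat]

theorem flat_cons (b : List.Vector α L) (x : List (List.Vector α L)) :
    flat (b :: x) = b.toList ++ flat x := by
  simp [flat]

theorem flat_nil : flat ([] : List (List.Vector α L)) = [] := rfl

theorem flat_unique (_hL : 0 < L) : ∀ (x y : List (List.Vector α L)) (r r' : List α),
    flat x ++ r = flat y ++ r' → r.length < L → r'.length < L → x = y ∧ r = r' := by
  intro x
  induction x with
  | nil =>
    intro y r r' h hr hr'
    cases y with
    | nil => exact ⟨rfl, by simpa [flat_nil] using h⟩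
    | cons b y =>
      exfalso
      rw [flat_nil, flat_cons] at h
      have := congrArg List.length h
      simp at this
      omega
  | cons b x ih =>
    intro y r r' h hr hr'
    cases y with
    | nil =>
      exfalso
      rw [flat_nil, flat_cons] at h
      have := congrArg List.length h
      simp at this
      omega
    | cons b' y =>
      rw [flat_cons, flat_cons, List.append_assoc, List.append_assoc] at h
      have h2 := List.append_inj h (by simp)
      obtain ⟨h3, h4⟩ := ih y r r' h2.2 hr hr'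
      refine ⟨?_, h4⟩
      rw [h3, List.Vector.eq _ _ h2.1]

theorem flat_injective (hL : 0 < L) : Function.Injective (flat (α := α) (L := L)) := by
  intro x y h
  exact (flat_unique hL x y [] [] (by rw [h]) hL hL).1

theorem img_cat (S T : Set (List (List.Vector α L))) :
    flat '' (cat S T) = cat (flat '' S) (flat '' T) := by
  ext w
  constructor
  · rintro ⟨_, ⟨x, hx, y, hy, rfl⟩, rfl⟩
    exact ⟨flat x, ⟨x, hx, rfl⟩, flat y, ⟨y, hy, rfl⟩, (flat_append x y).symm⟩
  · rintro ⟨_, ⟨x, hx, rfl⟩, _, ⟨y, hy, rfl⟩, rfl⟩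
    exact ⟨x ++ y, ⟨x, hx, y, hy, rfl⟩, flat_append x y⟩

theorem st_induction {β : Type} {S : Set (List β)} {p : List β → Prop} (h0 : p [])
    (h1 : ∀ x y, x ∈ S → y ∈ st S → p y → p (x ++ y)) : ∀ w ∈ st S, p w := by
  rintro w ⟨l, hl, rfl⟩
  induction l with
  | nil => exact h0
  | cons a l ih =>
    have hl' : ∀ x ∈ l, x ∈ S := fun x hx => hl x (List.mem_cons_of_mem _ hx)
    rw [List.flatten_cons]
    exact h1 a _ (hl a List.mem_cons_self) ⟨l, hl', rfl⟩ (ih hl')

theorem img_st (S : Set (List (List.Vector α L))) : flat '' (st S) = st (flat '' S) := by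
  ext w
  constructor
  · rintro ⟨x, hx, rfl⟩
    revert x
    refine st_induction ?_ ?_
    · exact st_nil _
    · intro x y hx _ ih
      rw [flat_append]
      exact st_cons ⟨x, hx, rfl⟩ ih
  · revert w
    refine st_induction ?_ ?_
    · exact ⟨[], st_nil _, rfl⟩
    · rintro _ _ ⟨x, hx, rfl⟩ - ⟨y, hy, rfl⟩
      exact ⟨x ++ y, st_cons hx hy, flat_append x y⟩

end Coding

/-! ### Finiteness of the pieces -/

namespace Cfg

variable {α X : Type} (c : Cfg α X)

theorem d_pos : 0 < c.d := c.sys.hd

theorem ω_pos : 0 < c.ω := lt_of_le_of_lt (Nat.zero_le _) c.hD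

theorem ω_le_M : c.ω ≤ c.M := Nat.le_mul_of_pos_right _ c.d_pos

theorem D_lt_M : c.D < c.M := lt_of_lt_of_le c.hD c.ω_le_M

theorem ωy_lt {y : ℕ} (hy : y ∈ c.Y) : c.ω * y < c.M :=
  Nat.mul_lt_mul_of_pos_left (c.sys.hY y hy) c.ω_pos

theorem K_finite [Finite α] : c.K.Finite := by
  refine (List.finite_length_le α (5 * c.M)).subset ?_
  rintro u (⟨a, rfl⟩ | ⟨a, w, b, y, z, rfl, hy, hz, -, hl, -⟩)
  · change (List.replicate c.M a).length ≤ _
    rw [List.length_replicate]
    omega
  · have h1 := c.ωy_lt hy
    have h2 := c.D_lt_M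
    have h3 := hl.1
    simp only [List.length_append, List.length_replicate, Set.mem_ofPred_eq]
    omega

theorem Zs_finite [Finite α] (k : X → ZMod 2) : (c.Zs k).Finite := by
  refine (List.finite_length_le α (5 * c.M)).subset ?_
  rintro u ⟨w, b, z, rfl, hw, -, hz, -, -⟩
  have h2 := c.D_lt_M
  simp only [List.length_append, List.length_replicate, Set.mem_ofPred_eq]
  omega

theorem Ys_finite [Finite α] (j : X → ZMod 2) : (c.Ys j).Finite := by
  refine (List.finite_length_le α (5 * c.M)).subset ?_
  rintro u ⟨a, w, y, rfl, hw, -, hy, -⟩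
  have h1 := c.ωy_lt hy
  have h2 := c.D_lt_M
  simp only [List.length_append, List.length_replicate, Set.mem_ofPred_eq]
  omega

/-- The basic languages. -/
def PP (j k : X → ZMod 2) : Set (List α) := cat (cat (c.Zs k) (st c.K)) (c.Ys j)

theorem PP_length {j k : X → ZMod 2} {w : List α} (hw : w ∈ c.PP j k) : c.D < w.length := by
  obtain ⟨x, ⟨_, ⟨u, b, z, rfl, -⟩, y, -, rfl⟩, v, -, rfl⟩ := hw
  have h2 := c.D_lt_M
  simp only [List.length_append, List.length_replicate]
  omega

theorem Cv_add (l : List (α × ℕ × List α)) (j : X → ZMod 2) :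
    c.Cv l j = c.pull (text l) j + c.Cv l 0 := by
  induction l with
  | nil => simp [Cv, text, pull_nil]
  | cons x l ih =>
    obtain ⟨a, n, w⟩ := x
    simp only [Cv, text]
    rw [ih, c.pull_append, c.pull_append, ← c.pull_add, c.pull_add w, add_assoc]

end Cfg

theorem W_mono {α : Type} {D P N N' : ℕ} (h : N' ≤ N) {v : List α} (hv : W D P N v) :
    W D P N' v := by
  induction hv with
  | base w hw => exact .base w hw
  | step w u v n h1 h2 h3 h4 _ ih => exact .step w u v n h1 h2 h3 (h.trans h4) ih

theorem zmod2_cases (x : ZMod 2) : x = 0 ∨ x = 1 := by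
  fin_cases x
  · exact Or.inl rfl
  · exact Or.inr rfl

theorem foldl_flat {α σ : Type} {L : ℕ} (step : σ → α → σ) (bs : List (List.Vector α L)) (s : σ) :
    (flat bs).foldl step s = bs.foldl (fun x b => b.toList.foldl step x) s := by
  induction bs generalizing s with
  | nil => rfl
  | cons b bs ih => rw [flat_cons, List.foldl_append, ih, List.foldl_cons]

theorem part1 (h1 : S_sys) (h2 : S_pow) (h3 : S_main) (h4 : S_norm) (h5 : S_block)
    (α σ : Type) [Finite α] [Finite σ] (step : σ → α → σ) (s : σ) (F : Set σ) (D P : ℕ) :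
    ∃ N₀ : ℕ, ∀ N, N₀ ≤ N → ∃ L' : Set (List α), HS 1 L' ∧
      ∀ v, W D P N v → (v ∈ L' ↔ v.foldl step s ∈ F) := by
  classical
  set L := P.factorial with hLdef
  have hL : 0 < L := Nat.factorial_pos P
  obtain ⟨ω, hω, hpow⟩ := h2 (List.Vector α L) σ (fun x b => b.toList.foldl step x) (D + 2)
  obtain ⟨d, t, Y, hsys⟩ := h1 σ
  let c : Cfg (List.Vector α L) σ :=
    { step := fun x b => b.toList.foldl step x
      D := D + 2
      ω := ω
      d := d
      t := t
      Y := Y
      hD := hω
      sys := hsys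
      hpow := hpow }
  have hM : 0 < c.M := lt_of_le_of_lt (Nat.zero_le _) c.D_lt_M
  -- acceptance of a decoded word with remainder `r`
  let acc : List α → Set (List (List.Vector α L)) := fun r =>
    {bs | (flat bs ++ r).foldl step s ∈ F}
  let χ : List α → σ → ZMod 2 := fun r x => if r.foldl step x ∈ F then 1 else 0
  let Q : List α → Set (List (List.Vector α L)) := fun r =>
    {bs | bs.length ≤ D + 2 ∧ bs ∈ acc r} ∪
      ⋃ k : (σ → ZMod 2) × (σ → ZMod 2), {bs | k.1 s + k.2 s = 1 ∧
        bs ∈ c.PP (χ r) k.1 ∩ c.PP 0 k.2}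
  have hQ : ∀ r bs, W (D + 2) 1 (4 * c.M) bs → (bs ∈ Q r ↔ bs ∈ acc r) := by
    intro r bs hbs
    rcases h4 _ _ _ bs (by omega) hbs with hlen | ⟨w0, a, n, w, l, hv, hw0, hlast, hgood⟩
    · constructor
      · rintro (⟨-, h⟩ | h)
        · exact h
        · exfalso
          simp only [Set.mem_iUnion, Set.mem_ofPred_eq] at h
          obtain ⟨k, -, hk, -⟩ := h
          have := c.PP_length hk
          change D + 2 < _ at this
          omega
      · intro h
        exact Or.inl ⟨hlen, h⟩
    · have hbig : D + 2 < bs.length := by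
        have h6 : 4 * c.M ≤ n := hgood.1
        have h7 : D + 2 < c.M := c.D_lt_M
        rw [hv]
        simp only [text, List.length_append, List.length_replicate]
        omega
      have key : ∀ j k : σ → ZMod 2, bs ∈ c.PP j k ↔
          k = c.pull w0 (c.Cv ((a, n, w) :: l) j) := by
        intro j k
        rw [hv]
        exact h3 _ _ c a n w w0 l j k hgood hw0 hlast
      have hacc : bs ∈ acc r ↔ c.pull w0 (c.Cv ((a, n, w) :: l) (χ r)) s +
          c.pull w0 (c.Cv ((a, n, w) :: l) 0) s = 1 := by
        rw [c.Cv_add _ (χ r), c.pull_add, ← c.pull_append, ← hv]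
        rw [Pi.add_apply, add_assoc, CharTwo.add_self_eq_zero, add_zero]
        change (flat bs ++ r).foldl step s ∈ F ↔ χ r (bs.foldl c.step s) = 1
        rw [List.foldl_append, foldl_flat]
        change _ ↔ (if r.foldl step (bs.foldl c.step s) ∈ F then (1 : ZMod 2) else 0) = 1
        split_ifs with h
        · exact ⟨fun _ => rfl, fun _ => h⟩
        · exact ⟨fun h' => absurd h' h, fun h' => absurd h' (by decide)⟩
      rw [hacc]
      constructor
      · rintro (⟨h, -⟩ | h)
        · change bs.length ≤ D + 2 at h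
          omega
        · simp only [Set.mem_iUnion, Set.mem_ofPred_eq] at h
          obtain ⟨k, hk, hk1, hk2⟩ := h
          rw [key] at hk1 hk2
          rw [← hk1, ← hk2]
          exact hk
      · intro h
        right
        simp only [Set.mem_iUnion, Set.mem_ofPred_eq]
        exact ⟨(_, _), h, (key _ _).2 rfl, (key _ _).2 rfl⟩
  have hHSP : ∀ j k, HS 1 (flat '' (c.PP j k)) := by
    intro j k
    unfold Cfg.PP
    rw [img_cat, img_cat, img_st]
    exact ((HS_finite 1 ((c.Zs_finite k).image _)).cat
      (HS.star (HS_finite 0 (c.K_finite.image _)))).cat (HS_finite 1 ((c.Ys_finite j).image _))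
  have hHSQ : ∀ r, HS 1 (flat '' (Q r)) := by
    intro r
    rw [Set.image_union, Set.image_iUnion]
    refine HS.union ?_ (HS.iUnion _ fun k => ?_)
    · refine HS_finite 1 (Set.Finite.image _ ?_)
      exact (List.finite_length_le (List.Vector α L) (D + 2)).subset fun x hx => hx.1
    · by_cases hk : k.1 s + k.2 s = 1
      · have : {bs | k.1 s + k.2 s = 1 ∧ bs ∈ c.PP (χ r) k.1 ∩ c.PP 0 k.2} =
            c.PP (χ r) k.1 ∩ c.PP 0 k.2 := by
          ext x
          exact ⟨fun h => h.2, fun h => ⟨hk, h⟩⟩
        rw [this, Set.image_inter (flat_injective hL)]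
        exact (hHSP _ _).inter (hHSP _ _)
      · have : {bs | k.1 s + k.2 s = 1 ∧ bs ∈ c.PP (χ r) k.1 ∩ c.PP 0 k.2} = ∅ := by
          ext x
          exact ⟨fun h => absurd h.1 hk, fun h => h.elim⟩
        rw [this, Set.image_empty]
        exact .empty 1
  refine ⟨L * (4 * c.M + 2), fun N hN => ?_⟩
  have hfin : Finite {r : List α // r.length < L} :=
    (List.finite_length_lt α L).to_subtype
  refine ⟨⋃ r : {r : List α // r.length < L}, cat (flat '' (Q r.1)) {r.1},
    HS.iUnion _ fun r => (hHSQ r.1).cat (HS_single 1 r.1), ?_⟩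
  intro v hv
  obtain ⟨bs, r, hvb, hr, hbs⟩ := h5 α D P (4 * c.M) v (W_mono hN hv)
  change v = flat bs ++ r at hvb
  change r.length < L at hr
  have hQb := hQ r bs hbs
  change bs ∈ Q r ↔ (flat bs ++ r).foldl step s ∈ F at hQb
  rw [← hvb] at hQb
  rw [← hQb]
  simp only [Set.mem_iUnion]
  constructor
  · rintro ⟨⟨r', hr'⟩, _, ⟨x, hx, rfl⟩, y, hy, h⟩
    rw [Set.mem_singleton_iff] at hy
    subst hy
    have h' : flat x ++ y = flat bs ++ r := by
      rw [← hvb]; exact h
    obtain ⟨h6, h7⟩ := flat_unique hL x bs _ r h' hr' hr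
    rw [← h6, ← h7]
    exact hx
  · intro h
    exact ⟨⟨r, hr⟩, flat bs, ⟨bs, h, rfl⟩, r, rfl, hvb.symm⟩

theorem cat_assoc' {α : Type} (A B C : Set (List α)) : cat (cat A B) C = cat A (cat B C) := by
  ext w
  constructor
  · rintro ⟨_, ⟨a, ha, b, hb, rfl⟩, c, hc, rfl⟩
    exact ⟨a, ha, b ++ c, ⟨b, hb, c, hc, rfl⟩, by simp⟩
  · rintro ⟨a, ha, _, ⟨b, hb, c, hc, rfl⟩, rfl⟩
    exact ⟨a ++ b, ⟨a, ha, b, hb, rfl⟩, c, hc, by simp⟩

theorem HS_W {α : Type} [Finite α] (D N : ℕ) : HS 1 {v : List α | W D 1 N v} := by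
  have hle : ∀ n, HS n {w : List α | w.length ≤ D} := fun n =>
    HS_finite n (List.finite_length_le α D)
  have hG : HS 0 (⋃ a : α, cat {w : List α | w.length ≤ D}
      (cat {List.replicate N a} {w : List α | ∀ x ∈ w, x ∈ ({a} : Set α)})) :=
    HS.iUnion _ fun a => (hle 0).cat ((HS_single 0 _).cat (HS.words 0 _))
  have := (HS.star hG).cat (hle 1)
  convert this using 1
  ext v
  constructor
  · intro hv
    change W D 1 N v at hv
    induction hv with
    | base w hw => exact ⟨[], st_nil _, w, hw, rfl⟩
    | step w u v n h1 h2 h3 h4 _ ih =>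
      obtain ⟨x, hx, y, hy, hxy⟩ := ih
      obtain ⟨a, rfl⟩ : ∃ a, u = [a] := by
        cases u with
        | nil => exact absurd rfl h2
        | cons a u =>
          cases u with
          | nil => exact ⟨a, rfl⟩
          | cons b u => simp at h3
      refine ⟨(w ++ List.replicate n a) ++ x, st_cons ?_ hx, y, hy, ?_⟩
      · simp only [Set.mem_iUnion]
        refine ⟨a, w, h1, List.replicate n a, ⟨List.replicate N a, rfl,
          List.replicate (n - N) a, ?_, ?_⟩, rfl⟩
        · intro z hz
          exact List.eq_of_mem_replicate hz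
        · change List.replicate N a ++ List.replicate (n - N) a = _
          rw [List.replicate_append_replicate]
          congr 1
          omega
      · rw [← hxy]
        simp
  · rintro ⟨x, hx, y, hy, rfl⟩
    change W D 1 N (x ++ y)
    revert x
    refine st_induction ?_ ?_
    · exact .base _ hy
    · intro g x hg _ ih
      simp only [Set.mem_iUnion] at hg
      obtain ⟨a, w, hw, _, ⟨_, rfl, z, hz, rfl⟩, rfl⟩ := hg
      have hz' : z = List.replicate z.length a := List.eq_replicate_of_mem hz
      have h := W.step (D := D) (P := 1) (N := N) w [a] (x ++ y) (N + z.length) hw (by simp)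
        (by simp) (by omega) ih
      have h8 : (List.replicate (N + z.length) [a]).flatten = List.replicate N a ++ z := by
        rw [List.flatten_replicate_singleton, List.replicate_add, ← hz']
      rw [h8] at h
      simpa using h

theorem pFin (h1 : S_sys) (h2 : S_pow) (h3 : S_main) (h4 : S_norm) (h5 : S_block) : S_result := by
  intro α σ _ _ step s F D P
  obtain ⟨N1, hN1⟩ := part1 h1 h2 h3 h4 h5 α σ step s F D P
  obtain ⟨N2, hN2⟩ := part1 h1 h2 h3 h4 h5 α σ step s F D 1
  refine ⟨max N1 N2, fun N hN => ⟨hN1 N (le_of_max_le_left hN), ?_⟩⟩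
  obtain ⟨L', hL', h⟩ := hN2 N (le_of_max_le_right hN)
  have := hL'.inter (HS_W (α := α) D N)
  convert this using 1
  ext v
  constructor
  · rintro ⟨ha, hb⟩
    exact ⟨(h v hb).2 ha, hb⟩
  · rintro ⟨ha, hb⟩
    exact ⟨(h v hb).1 ha, hb⟩

end Pool.Agent.H668R2.SR
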