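import Mathlib
import Pool.Agent.H668R2.SR.Defs

set_option autoImplicit false

namespace Pool.Agent.H668R2.SR

open Pool.Agent.H936R2.SH

namespace MainAux

variable {α X : Type}

theorem get_run (w r : List α) (n i : ℕ) (a : α) (h1 : w.length ≤ i) (h2 : i < w.length + n) :
    (w ++ (List.replicate n a ++ r))[i]? = some a := by
  rw [List.getElem?_append_right h1, List.getElem?_append_left (by simp; omega),
    List.getElem?_replicate]
  rw [if_pos (by omega)]

theorem get_last (w r : List α) (h : 0 < w.length) : (w ++ r)[w.length - 1]? = w.getLast? := by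
  rw [List.getElem?_append_left (by omega), List.getLast?_eq_getElem?]

theorem matching {w0 w' r r' : List α} {a b' : α} {n m D : ℕ}
    (h : w0 ++ (List.replicate n a ++ r) = w' ++ (List.replicate m b' ++ r'))
    (h0 : w0.length ≤ D) (h0' : w'.length ≤ D) (hD : D < m) (hm : m + D ≤ n)
    (l0 : w0.getLast? ≠ some a) (l0' : w'.getLast? ≠ some b') :
    w0 = w' ∧ a = b' ∧ r' = List.replicate (n - m) a ++ r := by
  rcases lt_trichotomy w0.length w'.length with hlt | heq | hgt
  · exfalso
    have e1 := get_run w0 r n (w'.length - 1) a (by omega) (by omega)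
    rw [h, get_last _ _ (by omega)] at e1
    have e2 := get_run w0 r n (w'.length) a (by omega) (by omega)
    have e3 := get_run w' r' m (w'.length) b' (by omega) (by omega)
    rw [h, e3] at e2
    rw [← e2] at e1
    exact l0' e1
  · obtain ⟨e1, e2⟩ := List.append_inj h heq
    have hab : a = b' := by
      have e3 := get_run [] r n 0 a (by simp) (by simp; omega)
      have e4 := get_run [] r' m 0 b' (by simp) (by simp; omega)
      simp only [List.nil_append] at e3 e4
      rw [e2, e4] at e3
      exact (Option.some.inj e3).symm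
    refine ⟨e1, hab, ?_⟩
    subst hab
    have hsplit : List.replicate n a = List.replicate m a ++ List.replicate (n - m) a := by
      rw [← List.replicate_add]; congr 1; omega
    rw [hsplit, List.append_assoc] at e2
    exact (List.append_cancel_left e2).symm
  · exfalso
    have e1 := get_run w' r' m (w0.length - 1) b' (by omega) (by omega)
    rw [← h, get_last _ _ (by omega)] at e1
    have e2 := get_run w' r' m (w0.length) b' (by omega) (by omega)
    have e3 := get_run w0 r n (w0.length) a (by omega) (by omega)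
    rw [← h, e3] at e2
    rw [← e2] at e1
    exact l0 e1

theorem per_mul {d : ℕ} {t : ℕ → X → ZMod 2} (hper : ∀ n, t (n + d) = t n) (x k : ℕ) :
    t (x + d * k) = t x := by
  induction k with
  | zero => simp
  | succ k ih => rw [Nat.mul_succ, ← Nat.add_assoc, hper, ih]

theorem pow_mul (c : Cfg α X) (a : α) (n k : ℕ) (x : X) (h : c.ω ≤ n) :
    (List.replicate (n + c.ω * k) a).foldl c.step x = (List.replicate n a).foldl c.step x := by
  induction k with
  | zero => simp
  | succ k ih =>
    rw [Nat.mul_succ, ← Nat.add_assoc, c.hpow a _ x (by omega), ih]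

theorem add_self2 (f : X → ZMod 2) (g : X → ZMod 2) : f + (f + g) = g := by
  funext x
  have : ∀ u v : ZMod 2, u + (u + v) = v := by decide
  exact this _ _

end MainAux

open MainAux

theorem pMain (h1 : S_sound) (h2 : S_compl) : S_main := by
  intro α X c a n w w0 l j k hG hw0 hlast
  have hG' := hG
  obtain ⟨hn, hwD, hwa, hnext, hGl⟩ := hG'
  have hd := c.sys.hd
  have hD := c.hD
  have hω : 0 < c.ω := by omega
  have hM : c.M = c.ω * c.d := rfl
  have hMω : c.ω ≤ c.M := by rw [hM]; exact Nat.le_mul_of_pos_right _ hd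
  -- the key computation
  have key : ∀ (y z' κ : ℕ), y ∈ c.Y → c.t y = c.pull w (c.Cv l j) → c.Val z' →
      n / c.ω = y + z' + c.d * κ → ∀ z, z / c.ω = z' → c.M + z ≤ n →
      c.ω ∣ (n - (c.M + z)) →
      c.pull (w0 ++ List.replicate (c.M + z) a) (c.t z') = c.pull w0 (c.Cv ((a, n, w) :: l) j) := by
    intro y z' κ hy hty hval hdiv z hz hle hdvd
    have e1 : c.t (n / c.ω) = c.t y + c.t z' := by
      rw [hdiv, per_mul c.sys.hper, hval y hy]
    rw [c.pull_append]
    show _ = c.pull w0 (c.pull (List.replicate n a) (c.pull w (c.Cv l j) + c.t (n / c.ω)))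
    rw [e1, ← hty, add_self2]
    congr 1
    obtain ⟨m, hm⟩ := hdvd
    have hnm : n = (c.M + z) + c.ω * m := by omega
    funext x
    unfold Cfg.pull
    rw [hnm, pow_mul c a (c.M + z) m x (by omega)]
  constructor
  · rintro ⟨x, ⟨z1, hz1, s1, hs1, rfl⟩, e, he, hxe⟩
    obtain ⟨w', b', z, rfl, hw'D, hw'l, hzM, hval, hk⟩ := hz1
    have hxe' : w0 ++ (List.replicate n a ++ (w ++ text l)) =
        w' ++ (List.replicate (c.M + z) b' ++ (s1 ++ e)) := by
      have : w0 ++ text ((a, n, w) :: l) = w0 ++ (List.replicate n a ++ (w ++ text l)) := rfl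
      rw [← this, ← hxe]
      simp
    obtain ⟨rfl, rfl, hr⟩ := matching hxe' hw0 hw'D (by omega) (by omega) hlast hw'l
    have hmem : List.replicate (n - (c.M + z)) a ++ (w ++ text l) ∈ cat (st c.K) (c.Ys j) := by
      rw [← hr]
      exact ⟨s1, hs1, e, he, rfl⟩
    obtain ⟨y, hy, hq, hty⟩ := h1 α X c a n w l j (n - (c.M + z)) hG (by omega) (by omega) hmem
    have hqe := Nat.div_add_mod (n - (c.M + z)) c.M
    set κ := (n - (c.M + z)) / c.M with hκ
    rw [hq] at hqe
    have hze := Nat.div_add_mod z c.ω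
    have hn2 : n = c.ω * (y + z / c.ω + c.d * (κ + 1)) + z % c.ω := by
      have : n = (c.M * κ + c.ω * y) + (c.M + z) := by omega
      conv_lhs => rw [this]
      conv_lhs => rw [← hze]
      rw [hM]; ring
    have hdiv : n / c.ω = y + z / c.ω + c.d * (κ + 1) := by
      conv_lhs => rw [hn2]
      rw [Nat.mul_add_div hω, Nat.div_eq_of_lt (Nat.mod_lt _ hω), Nat.add_zero]
    rw [hk]
    refine key y (z / c.ω) (κ + 1) hy hty hval hdiv z rfl (by omega) ?_
    refine ⟨c.d * κ + y, ?_⟩
    rw [← hqe, hM]; ring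
  · intro hk
    obtain ⟨y2, hy2, hty2, z', hz'd, hmod, hval⟩ := c.sys.hcov (n / c.ω) (c.pull w (c.Cv l j))
    have hy2d := c.sys.hY y2 hy2
    have hnω := Nat.div_add_mod n c.ω
    have hrem := Nat.mod_lt n hω
    -- n / ω ≥ 4 d
    have h4 : 4 * c.d ≤ n / c.ω := by
      rw [Nat.le_div_iff_mul_le hω]
      calc 4 * c.d * c.ω = 4 * c.M := by rw [hM]; ring
        _ ≤ n := hn
    obtain ⟨κ, hκ⟩ : ∃ κ, n / c.ω = y2 + z' + c.d * (κ + 2) := by
      have hdvd : c.d ∣ (n / c.ω - (y2 + z')) := by
        have := (Nat.modEq_iff_dvd' (by omega)).mp (show (y2 + z') ≡ n / c.ω [MOD c.d] from hmod)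
        exact this
      obtain ⟨m, hm⟩ := hdvd
      have hm2 : 2 ≤ m := by
        by_contra hlt
        have hm1 : m ≤ 1 := by omega
        have : c.d * m ≤ c.d * 1 := Nat.mul_le_mul_left _ hm1
        omega
      obtain ⟨κ, rfl⟩ := Nat.exists_eq_add_of_le' hm2
      exact ⟨κ, by omega⟩
    set z := c.ω * z' + n % c.ω with hz
    have hzω : z / c.ω = z' := by
      rw [hz, Nat.mul_add_div hω, Nat.div_eq_of_lt hrem, Nat.add_zero]
    have hzM : z < c.M := by
      have : c.ω * (z' + 1) ≤ c.ω * c.d := Nat.mul_le_mul_left _ hz'd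
      rw [hM]
      have e : c.ω * (z' + 1) = c.ω * z' + c.ω := by ring
      omega
    have hn3 : n = (c.M + z) + (c.M + c.ω * y2 + κ * c.M) := by
      conv_lhs => rw [← hnω, hκ]
      rw [hz, hM]; ring
    obtain ⟨s1, hs1, e, he, hse⟩ := h2 α X c l a n w j y2 κ hG hy2 hty2
    refine ⟨(w0 ++ List.replicate (c.M + z) a) ++ s1, ⟨w0 ++ List.replicate (c.M + z) a, ?_, s1, hs1,
      rfl⟩, e, he, ?_⟩
    · refine ⟨w0, a, z, rfl, hw0, hlast, hzM, ?_, ?_⟩
      · rw [hzω]; exact hval
      · rw [hk, hzω]
        refine (key y2 z' (κ + 2) hy2 hty2 hval hκ z hzω (by omega) ?_).symm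
        refine ⟨c.d + y2 + κ * c.d, ?_⟩
        rw [show n - (c.M + z) = c.M + c.ω * y2 + κ * c.M by omega, hM]; ring
    · show ((w0 ++ List.replicate (c.M + z) a) ++ s1) ++ e =
        w0 ++ (List.replicate n a ++ (w ++ text l))
      have hsp : List.replicate n a =
          List.replicate (c.M + z) a ++ List.replicate (c.M + c.ω * y2 + κ * c.M) a := by
        rw [← List.replicate_add]; congr 1
      have hse' : s1 ++ e = List.replicate (c.M + c.ω * y2 + κ * c.M) a ++ (w ++ text l) := hse
      rw [hsp, List.append_assoc (w0 ++ _), hse']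
      simp only [List.append_assoc]

end Pool.Agent.H668R2.SR
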