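import Mathlib
import Pool.Agent.H668R2.SR.Defs

set_option autoImplicit false

namespace Pool.Agent.H668R2.SR

open Pool.Agent.H936R2.SH

namespace NormAux

variable {α : Type}

theorem good_mono_run {N D : ℕ} {a : α} {n n' : ℕ} {w : List α} {l : List (α × ℕ × List α)}
    (h : Good N D ((a, n, w) :: l)) (hn : n ≤ n') : Good N D ((a, n', w) :: l) :=
  ⟨le_trans h.1 hn, h.2⟩

/-- A run in front. -/
theorem addRun (N D : ℕ) (a : α) (l1 : List (α × ℕ × List α)) (hl : Good N D l1) :
    ∀ (w1 : List α) (n : ℕ), N ≤ n → w1.length ≤ D →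
    (∀ b, hd l1 = some b → w1.getLast? ≠ some b) →
    ∃ (n' : ℕ) (w' : List α) (l' : List (α × ℕ × List α)),
      List.replicate n a ++ (w1 ++ text l1) = text ((a, n', w') :: l') ∧
      Good N D ((a, n', w') :: l') := by
  classical
  intro w1
  induction w1 with
  | nil =>
    intro n hn _ _
    cases l1 with
    | nil =>
      exact ⟨n, [], [], rfl, hn, Nat.zero_le _, by simp, by simp [hd], trivial⟩
    | cons r l2 =>
      obtain ⟨b, m, w3⟩ := r
      by_cases hab : a = b
      · subst hab
        refine ⟨n + m, w3, l2, ?_, good_mono_run hl (by omega)⟩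
        simp only [text, List.nil_append]
        rw [← List.append_assoc, List.replicate_append_replicate]
      · refine ⟨n, [], (b, m, w3) :: l2, rfl, hn, Nat.zero_le _, by simp, ?_, hl⟩
        intro b' hb'
        have : b = b' := by simpa [hd] using hb'
        subst this
        exact ⟨by simp, fun _ => hab⟩
  | cons c w1 ih =>
    intro n hn hw hlast
    by_cases hc : c = a
    · subst hc
      have h1 : List.replicate n c ++ (c :: w1 ++ text l1) =
          List.replicate (n + 1) c ++ (w1 ++ text l1) := by
        rw [List.replicate_succ']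
        simp
      rw [h1]
      apply ih (n + 1) (by omega) (by simp at hw; omega)
      intro b hb
      cases w1 with
      | nil => simp
      | cons e w =>
        have := hlast b hb
        rwa [List.getLast?_cons_cons] at this
    · refine ⟨n, c :: w1, l1, rfl, hn, hw, by simpa using hc, ?_, hl⟩
      intro b hb
      exact ⟨hlast b hb, by simp⟩

/-- Strip the letters of the run from the end of the gap. -/
theorem strip (N D : ℕ) (a : α) (w' : List α) (l' : List (α × ℕ × List α)) (w : List α) :
    ∀ n : ℕ, w.length ≤ D → Good N D ((a, n, w') :: l') →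
    ∃ (w0 : List α) (n' : ℕ), w ++ text ((a, n, w') :: l') = w0 ++ text ((a, n', w') :: l') ∧
      w0.length ≤ D ∧ w0.getLast? ≠ some a ∧ Good N D ((a, n', w') :: l') := by
  classical
  induction w using List.reverseRecOn with
  | nil =>
    intro n _ hg
    exact ⟨[], n, rfl, Nat.zero_le _, by simp, hg⟩
  | append_singleton w c ih =>
    intro n hw hg
    by_cases hc : c = a
    · subst hc
      obtain ⟨w0, n', h1, h2, h3, h4⟩ := ih (n + 1) (by simp at hw; omega)
        (good_mono_run hg (by omega))
      refine ⟨w0, n', ?_, h2, h3, h4⟩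
      rw [← h1]
      simp only [text]
      rw [List.replicate_succ]
      simp
    · exact ⟨w ++ [c], n, rfl, hw, by simpa using hc, hg⟩

theorem flatten_single (n : ℕ) (a : α) : (List.replicate n [a]).flatten = List.replicate n a := by
  induction n with
  | zero => rfl
  | succ n ih => rw [List.replicate_succ, List.flatten_cons, ih, List.replicate_succ]; rfl

theorem key (D N : ℕ) (v : List α) (h : W D 1 N v) :
    ∃ (w0 : List α) (l : List (α × ℕ × List α)), v = w0 ++ text l ∧ w0.length ≤ D ∧
      Good N D l ∧ ∀ a, hd l = some a → w0.getLast? ≠ some a := by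
  induction h with
  | base w hw =>
    exact ⟨w, [], by simp [text], hw, trivial, by simp [hd]⟩
  | step w u v n hw hu hu1 hn _ ih =>
    obtain ⟨a, rfl⟩ : ∃ a, u = [a] := by
      rw [← List.length_eq_one_iff]
      have : 0 < u.length := List.length_pos_iff.2 hu
      omega
    obtain ⟨w1, l1, rfl, hw1, hg, hlast⟩ := ih
    obtain ⟨n', w', l', h1, h2⟩ := addRun N D a l1 hg w1 n hn hw1 hlast
    obtain ⟨w0, n'', h3, h4, h5, h6⟩ := strip N D a w' l' w n' hw h2
    refine ⟨w0, (a, n'', w') :: l', ?_, h4, h6, ?_⟩
    · rw [flatten_single, h1, h3]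
    · intro b hb
      have : a = b := by simpa [hd] using hb
      subst this
      exact h5

end NormAux

open NormAux

theorem pNorm : S_norm := by
  intro α D N v _ hv
  obtain ⟨w0, l, h1, h2, h3, h4⟩ := key D N v hv
  cases l with
  | nil =>
    left
    rw [h1]
    simpa [text] using h2
  | cons r l =>
    obtain ⟨a, n, w⟩ := r
    right
    exact ⟨w0, a, n, w, l, h1, h2, h4 a rfl, h3⟩

end Pool.Agent.H668R2.SR
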