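import Mathlib
import Pool.Agent.H668R2.SR.Defs

set_option autoImplicit false

namespace Pool.Agent.H668R2.SR

open Pool.Agent.H936R2.SH

theorem pow_foldl {α X : Type} (step : X → α → X) (a : α) : ∀ (n : ℕ) (x : X),
    (List.replicate n a).foldl step x = (fun x => step x a)^[n] x := by
  intro n
  induction n with
  | zero => intro x; rfl
  | succ n ih =>
    intro x
    rw [List.replicate_succ, List.foldl_cons, ih, Function.iterate_succ_apply]

theorem pow_period {X : Type} (f : X → X) {i d : ℕ} (h : f^[i] = f^[i + d]) :
    ∀ (t n : ℕ), i ≤ n → f^[n + t * d] = f^[n] := by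
  intro t
  induction t with
  | zero => intro n _; rw [Nat.zero_mul, Nat.add_zero]
  | succ t ih =>
    intro n hn
    have e1 : n + (t + 1) * d = (n + t * d - i) + (i + d) := by
      have : i ≤ n + t * d := le_trans hn (Nat.le_add_right _ _)
      have h2 : (t + 1) * d = t * d + d := by ring
      omega
    rw [e1, Function.iterate_add, ← h, ← Function.iterate_add]
    have e2 : n + t * d - i + i = n + t * d := by
      have : i ≤ n + t * d := le_trans hn (Nat.le_add_right _ _)
      omega
    rw [e2]
    exact ih n hn

theorem pPow : S_pow := by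
  intro α X _ step D
  classical
  have hfin : Fintype X := Fintype.ofFinite X
  set N : ℕ := Fintype.card (X → X) with hN
  have hfac : 1 ≤ N.factorial := Nat.factorial_pos N
  refine ⟨(D + N + 1) * N.factorial, ?_, ?_⟩
  · calc D < D + N + 1 := by omega
      _ ≤ (D + N + 1) * N.factorial := Nat.le_mul_of_pos_right _ hfac
  · intro a n x hn
    rw [pow_foldl, pow_foldl]
    set f : X → X := fun x => step x a with hf
    have hni : ¬ Function.Injective (fun k : Fin (N + 1) => f^[k.val]) := by
      intro hinj
      have := Fintype.card_le_of_injective _ hinj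
      rw [Fintype.card_fin] at this
      omega
    have hex : ∃ i j : ℕ, i < j ∧ j ≤ N ∧ f^[i] = f^[j] := by
      unfold Function.Injective at hni
      push Not at hni
      obtain ⟨i, j, hij, hne⟩ := hni
      have hne' : i.val ≠ j.val := fun h => hne (Fin.ext h)
      rcases Nat.lt_or_gt_of_ne hne' with h | h
      · exact ⟨i.val, j.val, h, by have := j.2; omega, hij⟩
      · exact ⟨j.val, i.val, h, by have := i.2; omega, hij.symm⟩
    obtain ⟨i, j, hij, hjN, he⟩ := hex
    have hd : j - i ∣ N.factorial := Nat.dvd_factorial (by omega) (by omega)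
    obtain ⟨c, hc⟩ := hd
    have hp : f^[i] = f^[i + (j - i)] := by
      rw [he]
      congr 1
      omega
    have hωN : N ≤ (D + N + 1) * N.factorial :=
      le_trans (by omega : N ≤ D + N + 1) (Nat.le_mul_of_pos_right _ hfac)
    have h2 := pow_period f hp ((D + N + 1) * c) n (by omega)
    have e : (D + N + 1) * c * (j - i) = (D + N + 1) * N.factorial := by
      rw [hc]; ring
    rw [e] at h2
    rw [h2]

end Pool.Agent.H668R2.SR
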