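import Pool.Agent.H668R2.SR.Fin

/-!
The set of powers of a primitive word is star-free; the words `W D P N` form a language of
generalised star height at most one.
-/

set_option autoImplicit false

namespace Pool.Agent.H668R2.SR

open Pool.Agent.H936R2.SH

variable {α : Type}

/-- Powers of a word. -/
def pw (z : List α) (n : ℕ) : List α := (List.replicate n z).flatten

theorem pw_zero (z : List α) : pw z 0 = [] := rfl

theorem pw_succ (z : List α) (n : ℕ) : pw z (n + 1) = z ++ pw z n := by
  simp [pw, List.replicate_succ]

theorem pw_add (z : List α) (m n : ℕ) : pw z (m + n) = pw z m ++ pw z n := by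
  unfold pw
  rw [List.replicate_add, List.flatten_append]

theorem pw_one (z : List α) : pw z 1 = z := by simp [pw]

theorem pw_mul (z : List α) (m n : ℕ) : pw (pw z m) n = pw z (m * n) := by
  induction n with
  | zero => rfl
  | succ n ih => rw [pw_succ, ih, Nat.mul_succ, Nat.add_comm, pw_add]

/-- Commuting words are powers of a common word. -/
theorem comm_pow : ∀ (N : ℕ) (s x : List α), s.length + x.length ≤ N → s ++ x = x ++ s →
    ∃ z m n, s = pw z m ∧ x = pw z n := by
  intro N
  induction N with
  | zero =>
    intro s x h _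
    have hs : s = [] := List.length_eq_zero_iff.1 (by omega)
    have hx : x = [] := List.length_eq_zero_iff.1 (by omega)
    exact ⟨[], 0, 0, by rw [hs]; rfl, by rw [hx]; rfl⟩
  | succ N ih =>
    intro s x h hc
    rcases Nat.eq_zero_or_pos s.length with hs | hs
    · have hs' : s = [] := List.length_eq_zero_iff.1 hs
      exact ⟨x, 0, 1, by rw [hs']; rfl, (pw_one x).symm⟩
    rcases Nat.eq_zero_or_pos x.length with hx | hx
    · have hx' : x = [] := List.length_eq_zero_iff.1 hx
      exact ⟨s, 1, 0, (pw_one s).symm, by rw [hx']; rfl⟩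
    rcases le_total s.length x.length with hl | hl
    · obtain ⟨x', rfl⟩ : s <+: x := by
        have h1 : s <+: x ++ s := ⟨x, hc⟩
        exact List.prefix_of_prefix_length_le h1 (List.prefix_append x s) hl
      have hc' : s ++ x' = x' ++ s := by
        have : s ++ (s ++ x') = s ++ (x' ++ s) := by rw [hc, List.append_assoc]
        exact List.append_cancel_left this
      obtain ⟨z, m, n, h1, h2⟩ := ih s x' (by simp at h; omega) hc'
      exact ⟨z, m, m + n, h1, by rw [pw_add, ← h1, ← h2]⟩
    · obtain ⟨s', rfl⟩ : x <+: s := by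
        have h1 : x <+: s ++ x := ⟨s, hc.symm⟩
        exact List.prefix_of_prefix_length_le h1 (List.prefix_append s x) hl
      have hc' : x ++ s' = s' ++ x := by
        have : x ++ (x ++ s') = x ++ (s' ++ x) := by rw [← hc, List.append_assoc]
        exact List.append_cancel_left this
      obtain ⟨z, m, n, h1, h2⟩ := ih x s' (by simp at h; omega) hc'
      exact ⟨z, m + n, m, by rw [pw_add, ← h1, ← h2], h1⟩

/-- Primitive words. -/
def Prm (z : List α) : Prop := z ≠ [] ∧ ∀ s x, z = s ++ x → s ++ x = x ++ s → s = [] ∨ x = []

theorem exists_prm : ∀ (N : ℕ) (u : List α), u.length ≤ N → u ≠ [] →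
    ∃ z k, Prm z ∧ 0 < k ∧ u = pw z k ∧ z.length ≤ u.length := by
  intro N
  induction N with
  | zero =>
    intro u h hu
    exact absurd (List.length_eq_zero_iff.1 (by omega)) hu
  | succ N ih =>
    intro u h hu
    by_cases hp : Prm u
    · exact ⟨u, 1, hp, by omega, (pw_one u).symm, le_rfl⟩
    · have : ∃ s x, u = s ++ x ∧ s ++ x = x ++ s ∧ s ≠ [] ∧ x ≠ [] := by
        by_contra hne
        apply hp
        refine ⟨hu, fun s x h1 h2 => ?_⟩
        by_contra h3
        rw [not_or] at h3
        exact hne ⟨s, x, h1, h2, h3.1, h3.2⟩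
      obtain ⟨s, x, rfl, hc, hs, hx⟩ := this
      obtain ⟨z, m, n, h1, h2⟩ := comm_pow _ s x le_rfl hc
      have hm : 0 < m := by
        rcases Nat.eq_zero_or_pos m with h0 | h0
        · rw [h0] at h1
          exact absurd h1 hs
        · exact h0
      have hn : 0 < n := by
        rcases Nat.eq_zero_or_pos n with h0 | h0
        · rw [h0] at h2
          exact absurd h2 hx
        · exact h0
      have hz : z ≠ [] := by
        rintro rfl
        apply hs
        rw [h1]
        simp [pw]
      have hzl : 0 < z.length := List.length_pos_iff.2 hz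
      have hlen : z.length < (s ++ x).length := by
        rw [h1, h2]
        obtain ⟨m', rfl⟩ : ∃ m', m = m' + 1 := ⟨m - 1, by omega⟩
        obtain ⟨n', rfl⟩ : ∃ n', n = n' + 1 := ⟨n - 1, by omega⟩
        rw [pw_succ, pw_succ]
        simp only [List.length_append]
        omega
      obtain ⟨z', k, hz', hk, h3, h4⟩ := ih z (by omega) hz
      refine ⟨z', k * (m + n), hz', Nat.mul_pos hk (by omega), ?_, by omega⟩
      rw [← pw_mul, ← h3, pw_add, ← h1, ← h2]

/-- Words of period `p`. -/
def Pd (p : ℕ) : Set (List α) := {w | ∀ i b, w[i + p]? = some b → w[i]? = some b}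

theorem HS_Pd [Finite α] (p : ℕ) : HS 0 (Pd (α := α) p) := by
  classical
  -- the forbidden factors
  let Fb : Set (List α) := {x | x.length = p + 1 ∧ x[0]? ≠ x[p]?}
  have hF : Fb.Finite := by
    refine (List.finite_length_le α (p + 1)).subset ?_
    intro x hx
    exact le_of_eq hx.1
  have h := (((HS.univ 0).cat (HS_finite 0 hF)).cat (HS.univ 0)).compl
  convert h using 1
  ext w
  constructor
  · rintro hw ⟨_, ⟨x, -, y, ⟨hy1, hy2⟩, rfl⟩, z, -, rfl⟩
    apply hy2
    have hb : ∃ b, y[p]? = some b := by
      rw [List.getElem?_eq_getElem (by omega)]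
      exact ⟨_, rfl⟩
    obtain ⟨b, hb⟩ := hb
    have h1 : (x ++ y ++ z)[x.length + p]? = some b := by
      rw [List.append_assoc, List.getElem?_append_right (by omega),
        List.getElem?_append_left (by omega)]
      rw [← hb]
      congr 1
      omega
    have h2 : (x ++ y ++ z)[x.length]? = some b := hw _ _ h1
    rw [List.append_assoc, List.getElem?_append_right (by omega),
      List.getElem?_append_left (by omega)] at h2
    rw [hb, ← h2]
    congr 1
    omega
  · intro hw i b hb
    by_contra hne
    apply hw
    have hlt : i + p < w.length := by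
      by_contra hcon
      rw [List.getElem?_eq_none (by omega)] at hb
      exact absurd hb (by simp)
    refine ⟨w.take i ++ (w.drop i).take (p + 1), ⟨w.take i, trivial, (w.drop i).take (p + 1),
      ⟨?_, ?_⟩, rfl⟩, (w.drop i).drop (p + 1), trivial, ?_⟩
    · rw [List.length_take, List.length_drop]
      omega
    · rw [List.getElem?_take_of_lt (by omega), List.getElem?_take_of_lt (by omega),
        List.getElem?_drop, List.getElem?_drop, hb]
      simpa using hne
    · change w.take i ++ (w.drop i).take (p + 1) ++ (w.drop i).drop (p + 1) = w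
      rw [List.append_assoc, List.take_append_drop, List.take_append_drop]

theorem Pd_suffix {p : ℕ} {x w : List α} (h : x ++ w ∈ Pd p) : w ∈ Pd p := by
  intro i b hb
  have h1 : (x ++ w)[(x.length + i) + p]? = some b := by
    rw [List.getElem?_append_right (by omega), ← hb]
    congr 1
    omega
  have h2 := h _ _ h1
  rw [List.getElem?_append_right (by omega)] at h2
  rw [← h2]
  congr 1
  omega

theorem Pd_decomp (z : List α) (hz : z ≠ []) : ∀ (N : ℕ) (w : List α), w.length ≤ N →
    w ∈ Pd z.length → z <+: w → ∃ k s, 0 < k ∧ w = pw z k ++ s ∧ s.length < z.length ∧ s <+: z := by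
  have hzl : 0 < z.length := List.length_pos_iff.2 hz
  intro N
  induction N with
  | zero =>
    rintro w hw - ⟨w', rfl⟩
    rw [List.length_append] at hw
    omega
  | succ N ih =>
    rintro w hw hp ⟨w', rfl⟩
    have hp' : w' ∈ Pd z.length := Pd_suffix hp
    have hpre : w' <+: z ∨ z <+: w' := by
      have hkey : ∀ i, i < w'.length → i < z.length → w'[i]? = z[i]? := by
        intro i h1 h2
        have h3 : (z ++ w')[i + z.length]? = some (w'[i]'h1) := by
          rw [List.getElem?_append_right (by omega)]
          rw [show i + z.length - z.length = i by omega, List.getElem?_eq_getElem h1]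
        have h4 := hp _ _ h3
        rw [List.getElem?_append_left h2] at h4
        rw [h4, List.getElem?_eq_getElem h1]
      rcases le_total w'.length z.length with hl | hl
      · left
        rw [List.prefix_iff_eq_take]
        apply List.ext_getElem?
        intro i
        by_cases hi : i < w'.length
        · rw [List.getElem?_take_of_lt hi]
          exact hkey i hi (by omega)
        · rw [List.getElem?_eq_none (by omega), List.getElem?_eq_none (by
            rw [List.length_take]; omega)]
      · right
        rw [List.prefix_iff_eq_take]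
        apply List.ext_getElem?
        intro i
        by_cases hi : i < z.length
        · rw [List.getElem?_take_of_lt hi]
          exact (hkey i (by omega) hi).symm
        · rw [List.getElem?_eq_none (by omega), List.getElem?_eq_none (by
            rw [List.length_take]; omega)]
    rcases lt_or_ge w'.length z.length with hl | hl
    · refine ⟨1, w', by omega, by rw [pw_one], hl, ?_⟩
      rcases hpre with h | h
      · exact h
      · have := h.length_le
        omega
    · have hzw : z <+: w' := by
        rcases hpre with h | h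
        · have h5 : w' = z := h.eq_of_length_le hl
          rw [h5]
        · exact h
      obtain ⟨k, s, hk, h1, h2, h3⟩ := ih w' (by simp at hw; omega) hp' hzw
      exact ⟨k + 1, s, by omega, by rw [pw_succ, List.append_assoc, ← h1], h2, h3⟩

theorem pw_Pd (z : List α) (k : ℕ) : pw z k ∈ Pd z.length := by
  induction k with
  | zero =>
    intro i b hb
    rw [pw_zero] at hb
    simp at hb
  | succ k ih =>
    intro i b hb
    by_cases hi : i < z.length
    · rw [pw_succ, List.getElem?_append_right (by omega)] at hb
      rw [show i + z.length - z.length = i by omega] at hb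
      cases k with
      | zero => rw [pw_zero] at hb; simp at hb
      | succ k =>
        rw [pw_succ, List.getElem?_append_left hi] at hb
        rw [pw_succ, List.getElem?_append_left hi]
        exact hb
    · rw [pw_succ, List.getElem?_append_right (by omega)] at hb
      rw [pw_succ, List.getElem?_append_right (by omega)]
      apply ih
      rw [← hb]
      congr 1
      omega

theorem HS_pw [Finite α] {z : List α} (hz : Prm z) : HS 0 {w : List α | ∃ n, w = pw z n} := by
  have h1 : HS 0 (cat {z} (Set.univ : Set (List α))) := (HS_single 0 z).cat (HS.univ 0)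
  have h2 : HS 0 (cat (Set.univ : Set (List α)) {z}) := (HS.univ 0).cat (HS_single 0 z)
  have h := (HS.eps 0).union (((HS_Pd (α := α) z.length).inter h1).inter h2)
  convert h using 1
  ext w
  constructor
  · rintro ⟨n, rfl⟩
    cases n with
    | zero => exact Or.inl rfl
    | succ n =>
      refine Or.inr ⟨⟨pw_Pd z _, ⟨z, rfl, pw z n, trivial, (pw_succ z n).symm⟩⟩, ?_⟩
      refine ⟨pw z n, trivial, z, rfl, ?_⟩
      change pw z n ++ z = _
      rw [pw_add, pw_one]
  · rintro (h | ⟨⟨hp, ⟨_, rfl, y, -, hy⟩⟩, ⟨x, -, _, rfl, hx⟩⟩)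
    · exact ⟨0, h⟩
    · change _ ++ y = w at hy
      rename_i z'
      obtain ⟨k, s, hk, hw, hs, hsz⟩ := Pd_decomp _ hz.1 _ w le_rfl hp ⟨y, hy⟩
      refine ⟨k, ?_⟩
      obtain ⟨t, ht⟩ := hsz
      obtain ⟨k', rfl⟩ : ∃ k', k = k' + 1 := ⟨k - 1, by omega⟩
      change x ++ _ = w at hx
      have h5 : z' ++ s = s ++ (t ++ s) := by rw [← List.append_assoc, ht]
      have h6 : x ++ z' = (pw z' k' ++ s) ++ (t ++ s) := by
        rw [hx, hw, pw_add, pw_one, List.append_assoc, List.append_assoc, h5]
      have h7 := List.append_inj_right' h6 (by rw [← ht]; simp; omega)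
      rcases hz.2 s t ht.symm (by rw [ht]; exact h7) with h8 | h8
      · rw [h8, List.append_nil] at hw
        exact hw
      · exfalso
        rw [h8, List.append_nil] at ht
        rw [ht] at hs
        omega

theorem HS_WP [Finite α] (D P N : ℕ) : HS 1 {v : List α | W D P N v} := by
  have hle : ∀ n, HS n {w : List α | w.length ≤ D} := fun n =>
    HS_finite n (List.finite_length_le α D)
  have hfin : Finite {z : List α // z.length ≤ P ∧ Prm z} :=
    ((List.finite_length_le α P).subset (fun z hz => hz.1) :
      {z : List α | z.length ≤ P ∧ Prm z}.Finite).to_subtype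
  have hG : HS 0 (⋃ z : {z : List α // z.length ≤ P ∧ Prm z}, cat {w : List α | w.length ≤ D}
      (cat {pw z.1 N} {w : List α | ∃ n, w = pw z.1 n})) :=
    HS.iUnion _ fun z => (hle 0).cat ((HS_single 0 _).cat (HS_pw z.2.2))
  have := (HS.star hG).cat (hle 1)
  convert this using 1
  ext v
  constructor
  · intro hv
    change W D P N v at hv
    induction hv with
    | base w hw => exact ⟨[], st_nil _, w, hw, rfl⟩
    | step w u v n h1 h2 h3 h4 _ ih =>
      obtain ⟨x, hx, y, hy, hxy⟩ := ih
      obtain ⟨z, k, hz, hk, rfl, hzl⟩ := exists_prm _ u le_rfl h2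
      refine ⟨(w ++ pw (pw z k) n) ++ x, st_cons ?_ hx, y, hy, ?_⟩
      · simp only [Set.mem_iUnion]
        refine ⟨⟨z, by omega, hz⟩, w, h1, pw (pw z k) n, ⟨pw z N, rfl, pw z (k * n - N),
          ⟨_, rfl⟩, ?_⟩, rfl⟩
        change pw z N ++ pw z (k * n - N) = _
        rw [← pw_add, pw_mul]
        congr 1
        have : n ≤ k * n := Nat.le_mul_of_pos_left n hk
        omega
      · rw [← hxy]
        simp [pw]
  · rintro ⟨x, hx, y, hy, rfl⟩
    change W D P N (x ++ y)
    revert x
    refine st_induction ?_ ?_
    · exact .base _ hy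
    · intro g x hg _ ih
      simp only [Set.mem_iUnion] at hg
      obtain ⟨⟨z, hz1, hz2⟩, w, hw, _, ⟨_, rfl, _, ⟨n, rfl⟩, rfl⟩, rfl⟩ := hg
      have h := W.step (D := D) (P := P) (N := N) w z (x ++ y) (N + n) hw hz2.1
        hz1 (by omega) ih
      have h8 : (List.replicate (N + n) z).flatten = pw z N ++ pw z n := pw_add z N n
      rw [h8] at h
      simpa using h

theorem pFinal (h1 : S_sys) (h2 : S_pow) (h3 : S_main) (h4 : S_norm) (h5 : S_block)
    (α σ : Type) [Finite α] [Finite σ] (step : σ → α → σ) (s : σ) (F : Set σ) (D P : ℕ) :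
    ∃ N₀ : ℕ, ∀ N, N₀ ≤ N → HS 1 {v : List α | v.foldl step s ∈ F ∧ W D P N v} := by
  obtain ⟨N1, hN1⟩ := part1 h1 h2 h3 h4 h5 α σ step s F D P
  refine ⟨N1, fun N hN => ?_⟩
  obtain ⟨L', hL', h⟩ := hN1 N hN
  have := hL'.inter (HS_WP (α := α) D P N)
  convert this using 1
  ext v
  constructor
  · rintro ⟨ha, hb⟩
    exact ⟨(h v hb).2 ha, hb⟩
  · rintro ⟨ha, hb⟩
    exact ⟨(h v hb).1 ha, hb⟩

end Pool.Agent.H668R2.SR
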