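import Pool.Agent.H668R2.SR.Defs

set_option autoImplicit false

namespace Pool.Agent.H668R2.SR

open Pool.Agent.H936R2.SH

namespace SoundAux

variable {α : Type}

theorem pre {n : ℕ} {b : α} {s t r : List α} (h : s ++ t = List.replicate n b ++ r)
    (hs : s.length ≤ n) : s = List.replicate s.length b ∧
      t = List.replicate (n - s.length) b ++ r := by
  have e : List.replicate n b = List.replicate s.length b ++ List.replicate (n - s.length) b := by
    rw [← List.replicate_add]; congr 1; omega
  rw [e, List.append_assoc] at h
  exact List.append_inj h (by simp)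

theorem head_rep {q : ℕ} {a : α} (hq : 0 < q) (r : List α) :
    (List.replicate q a ++ r).head? = some a := by
  obtain ⟨q, rfl⟩ : ∃ q', q = q' + 1 := ⟨q - 1, by omega⟩
  rw [List.replicate_succ]; rfl

theorem M1 {q y : ℕ} {a b : α} {r r' : List α}
    (h : List.replicate q a ++ r = List.replicate y b ++ r') (hq : 0 < q) (hy : 0 < y)
    (hr : r.head? ≠ some a) (hr' : r'.head? ≠ some b) : a = b ∧ q = y ∧ r = r' := by
  have hab : a = b := by
    have h1 := head_rep hq (a := a) r
    rw [h, head_rep hy] at h1
    exact (Option.some.inj h1).symm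
  subst hab
  rcases le_total q y with hqy | hqy
  · obtain ⟨e1, e2⟩ := pre h (by simpa using hqy)
    rw [List.length_replicate] at e2
    rcases Nat.eq_zero_or_pos (y - q) with h0 | h0
    · rw [h0] at e2
      exact ⟨rfl, by omega, by simpa using e2⟩
    · exact absurd (by rw [e2, head_rep h0]) hr
  · obtain ⟨e1, e2⟩ := pre h.symm (by simpa using hqy)
    rw [List.length_replicate] at e2
    rcases Nat.eq_zero_or_pos (q - y) with h0 | h0
    · rw [h0] at e2
      exact ⟨rfl, by omega, by simpa using e2.symm⟩
    · exact absurd (by rw [e2, head_rep h0]) hr'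

theorem last_rep {s : List α} {b : α} (hs : s ≠ []) (h : s = List.replicate s.length b) (w : List α) :
    (w ++ s).getLast? = some b := by
  have hl : 0 < s.length := List.length_pos_iff.2 hs
  obtain ⟨k, hk⟩ : ∃ k, s.length = k + 1 := ⟨s.length - 1, by omega⟩
  rw [hk, List.replicate_succ'] at h
  rw [h, ← List.append_assoc, List.getLast?_append]
  simp

theorem M2 {n z D : ℕ} {b b' : α} {w w' r r' : List α}
    (h : w ++ (List.replicate n b ++ r) = w' ++ (List.replicate z b' ++ r'))
    (hw : w.length ≤ D) (hw' : w'.length ≤ D) (hz : D < z) (hn : z + D ≤ n)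
    (hl : w.getLast? ≠ some b) (hl' : w'.getLast? ≠ some b') :
    w = w' ∧ b = b' ∧ r' = List.replicate (n - z) b ++ r := by
  rcases List.append_eq_append_iff.1 h with ⟨s, e1, e2⟩ | ⟨s, e1, e2⟩
  · -- `w' = w ++ s`
    have hsl : s.length ≤ D := by
      have := congrArg List.length e1
      rw [List.length_append] at this
      omega
    obtain ⟨e3, e4⟩ := pre e2.symm (by omega)
    have hbb : b' = b := by
      have h1 := head_rep (show 0 < z by omega) (a := b') r'
      rw [e4, head_rep (by omega)] at h1
      exact (Option.some.inj h1).symm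
    subst hbb
    by_cases hs : s = []
    · subst hs
      rw [List.append_nil] at e1
      refine ⟨e1.symm, rfl, ?_⟩
      simp only [List.length_nil, Nat.sub_zero] at e4
      have := (pre e4 (by rw [List.length_replicate]; omega)).2
      rwa [List.length_replicate] at this
    · exact absurd (by rw [e1, last_rep hs e3]) hl'
  · have hsl : s.length ≤ D := by
      have := congrArg List.length e1
      rw [List.length_append] at this
      omega
    obtain ⟨e3, e4⟩ := pre e2.symm (by omega)
    have hbb : b' = b := by
      have h1 := head_rep (show 0 < n by omega) (a := b) r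
      rw [e4, head_rep (by omega)] at h1
      exact Option.some.inj h1
    subst hbb
    by_cases hs : s = []
    · subst hs
      rw [List.append_nil] at e1
      refine ⟨e1, rfl, ?_⟩
      simp only [List.length_nil, Nat.sub_zero] at e4
      have := (pre e4.symm (by rw [List.length_replicate]; omega)).2
      rwa [List.length_replicate] at this
    · exact absurd (by rw [e1, last_rep hs e3]) hl

end SoundAux

open SoundAux

namespace Cfg

variable {α X : Type} (c : Cfg α X)

theorem sd_ω : 0 < c.ω := lt_of_le_of_lt (Nat.zero_le _) c.hD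

theorem sd_M : c.ω ≤ c.M := by
  unfold M
  exact Nat.le_mul_of_pos_right _ c.sys.hd

theorem sd_per (n k : ℕ) : c.t (n + c.d * k) = c.t n := by
  induction k with
  | zero => rfl
  | succ k ih => rw [Nat.mul_succ, ← Nat.add_assoc, c.sys.hper, ih]

theorem sd_pow (a : α) (n k : ℕ) (hn : c.ω ≤ n) (f : X → ZMod 2) :
    c.pull (List.replicate (n + c.ω * k) a) f = c.pull (List.replicate n a) f := by
  induction k with
  | zero => rfl
  | succ k ih =>
    rw [← ih]
    funext x
    unfold pull
    rw [Nat.mul_succ, ← Nat.add_assoc, c.hpow a (n + c.ω * k) x (by omega)]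

theorem sd_two (f : X → ZMod 2) : f + f = 0 := by
  funext x
  exact CharTwo.add_self_eq_zero (f x)

theorem sd_ne {a : α} {n : ℕ} {w : List α} {l : List (α × ℕ × List α)} (hM : 0 < c.M)
    (hG : Good (4 * c.M) c.D ((a, n, w) :: l)) : (w ++ text l).head? ≠ some a := by
  obtain ⟨h1, h2, h3, h4, h5⟩ := hG
  cases w with
  | cons x w => simpa using h3
  | nil =>
    cases l with
    | nil => simp [text]
    | cons bl l =>
      obtain ⟨b, m, w2⟩ := bl
      have hm : 4 * c.M ≤ m := h5.1
      have hab := (h4 b rfl).2 rfl
      show (List.replicate m b ++ (w2 ++ text l)).head? ≠ some a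
      rw [head_rep (by omega)]
      intro h
      exact hab (Option.some.inj h).symm

/-- every word of the star followed by a right end begins with `M` equal letters -/
theorem sd_start (ks : List (List α)) (hks : ∀ x ∈ ks, x ∈ c.K) (j : X → ZMod 2) (e : List α)
    (he : e ∈ c.Ys j) : ∃ b r, ks.flatten ++ e = List.replicate c.M b ++ r := by
  cases ks with
  | nil =>
    obtain ⟨a, w, y, h, -⟩ := he
    refine ⟨a, List.replicate (c.ω * y) a ++ w, ?_⟩
    rw [List.flatten_nil, List.nil_append, h, List.replicate_add, List.append_assoc]
  | cons k ks =>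
    rcases hks k (by simp) with ⟨a, h⟩ | ⟨a, w, b, y, z, h, -⟩
    · exact ⟨a, ks.flatten ++ e, by rw [h]; simp⟩
    · refine ⟨a, List.replicate (c.ω * y) a ++ (w ++ (List.replicate (c.M + z) b ++
        (ks.flatten ++ e))), ?_⟩
      rw [List.flatten_cons, h, List.replicate_add c.M (c.ω * y)]
      simp only [List.append_assoc]

/-- statement `A` -/
def SA (j : X → ZMod 2) (u : List α) : Prop :=
  ∀ (a : α) (n : ℕ) (w : List α) (l : List (α × ℕ × List α)) (q : ℕ),
    Good (4 * c.M) c.D ((a, n, w) :: l) → 0 < q → List.replicate q a ++ (w ++ text l) = u →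
    ∃ y ∈ c.Y, q % c.M = c.ω * y ∧ c.t y = c.pull w (c.Cv l j)

theorem sd_B (j : X → ZMod 2) (u : List α) (hA : c.SA j u)
    (hu : ∃ b r, u = List.replicate c.M b ++ r) (a : α) (n : ℕ) (w : List α)
    (l : List (α × ℕ × List α)) (hG : Good (4 * c.M) c.D ((a, n, w) :: l))
    (h : w ++ text l = u) : c.pull w (c.Cv l j) = 0 := by
  have hω := c.sd_ω
  have hM := c.sd_M
  have hD := c.hD
  obtain ⟨b0, r, hb⟩ := hu
  obtain ⟨g1, g2, g3, g4, g5⟩ := hG
  have h' := h
  rw [hb] at h
  obtain ⟨e1, e2⟩ := pre h (by omega)
  cases l with
  | nil =>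
    exfalso
    have := congrArg List.length e2
    simp only [text, List.length_nil, List.length_append, List.length_replicate] at this
    omega
  | cons bl l =>
    obtain ⟨b, m, w2⟩ := bl
    have hm : 4 * c.M ≤ m := g5.1
    have hbb : b0 = b := by
      have h1 := head_rep (show 0 < m by omega) (a := b) (w2 ++ text l)
      have h2 : text ((b, m, w2) :: l) = List.replicate m b ++ (w2 ++ text l) := rfl
      rw [← h2, e2, head_rep (by omega)] at h1
      exact Option.some.inj h1
    subst hbb
    by_cases hw : w = []
    · subst hw
      obtain ⟨y, hy, hq, hS⟩ := hA b0 m w2 l m g5 (by omega) h'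
      rw [pull_nil]
      show c.pull (List.replicate m b0) (c.pull w2 (c.Cv l j) + c.t (m / c.ω)) = 0
      have hmo : m / c.ω = y + c.d * (m / c.M) := by
        have h3 : m = c.ω * (y + c.d * (m / c.M)) := by
          have h4 := Nat.div_add_mod m c.M
          rw [hq] at h4
          conv_lhs => rw [← h4]
          unfold M
          ring
        conv_lhs => rw [h3]
        exact Nat.mul_div_cancel_left _ hω
      rw [hmo, c.sd_per, ← hS, sd_two, pull_zero]
    · exact absurd (last_rep hw e1 []) (by simpa using (g4 b0 rfl).1)

theorem sd_A (j : X → ZMod 2) (e : List α) (he : e ∈ c.Ys j) :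
    ∀ (ks : List (List α)), (∀ x ∈ ks, x ∈ c.K) → c.SA j (ks.flatten ++ e) := by
  have hω := c.sd_ω
  have hM := c.sd_M
  have hD := c.hD
  have hdiv : ∀ y ∈ c.Y, c.ω * y < c.M := by
    intro y hy
    unfold M
    exact Nat.mul_lt_mul_of_pos_left (c.sys.hY y hy) hω
  intro ks
  induction ks with
  | nil =>
    intro _ a n w l q hG hq h
    obtain ⟨a', w', y, he1, he2, he3, he4, he5⟩ := he
    rw [List.flatten_nil, List.nil_append, he1] at h
    obtain ⟨e1, e2, e3⟩ := M1 h hq (by omega) (c.sd_ne (by omega) hG) he3
    subst e1
    obtain ⟨g1, g2, g3, g4, g5⟩ := hG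
    have hl : l = [] := by
      cases l with
      | nil => rfl
      | cons bl l =>
        exfalso
        obtain ⟨b, m, w2⟩ := bl
        have hm : 4 * c.M ≤ m := g5.1
        have := congrArg List.length e3
        simp only [text, List.length_append, List.length_replicate] at this
        omega
    subst hl
    have hww : w = w' := by simpa [text] using e3
    subst hww
    refine ⟨y, he4, ?_, he5⟩
    rw [e2, Nat.add_mod_left, Nat.mod_eq_of_lt (hdiv y he4)]
  | cons k ks ih =>
    intro hks a n w l q hG hq h
    have hks' : ∀ x ∈ ks, x ∈ c.K := fun x hx => hks x (List.mem_cons_of_mem _ hx)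
    have hA := ih hks'
    have hstart := c.sd_start ks hks' j e he
    rw [List.flatten_cons, List.append_assoc] at h
    rcases hks k (by simp) with ⟨a', hk⟩ | ⟨a', w', b', y, z, hk, hy, hz, hv, hlink, hty⟩
    · -- `k = replicate M a'`
      rw [hk] at h
      have haa : a = a' := by
        have h1 := head_rep hq (a := a) (w ++ text l)
        rw [h, head_rep (by omega)] at h1
        exact (Option.some.inj h1).symm
      subst haa
      by_cases hqM : q < c.M
      · exfalso
        obtain ⟨-, e2⟩ := pre h (by rw [List.length_replicate]; omega)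
        rw [List.length_replicate] at e2
        exact c.sd_ne (by omega) hG (by rw [e2, head_rep (by omega)])
      · obtain ⟨-, e2⟩ := pre h.symm (by rw [List.length_replicate]; omega)
        rw [List.length_replicate] at e2
        rcases Nat.eq_zero_or_pos (q - c.M) with h0 | h0
        · rw [h0] at e2
          have hB := c.sd_B j _ hA hstart a n w l hG (by simpa using e2.symm)
          refine ⟨0, c.sys.h0, ?_, by rw [c.sys.ht0, hB]⟩
          have : q = c.M := by omega
          rw [this, Nat.mod_self, Nat.mul_zero]
        · obtain ⟨y, hy, h3, h4⟩ := hA a n w l (q - c.M) hG h0 e2.symm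
          refine ⟨y, hy, ?_, h4⟩
          rw [← h3]
          conv_lhs => rw [show q = c.M + (q - c.M) by omega]
          rw [Nat.add_mod_left]
    · -- crossing word
      obtain ⟨k1, k2, k3, k4⟩ := hlink
      rw [hk] at h
      simp only [List.append_assoc] at h
      have hne : (w' ++ (List.replicate (c.M + z) b' ++ (ks.flatten ++ e))).head? ≠ some a' := by
        cases w' with
        | cons x w' => simpa using k2
        | nil =>
          rw [List.nil_append, head_rep (by omega)]
          intro h
          exact k4 rfl (Option.some.inj h).symm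
      obtain ⟨e1, e2, e3⟩ := M1 h hq (by omega) (c.sd_ne (by omega) hG) hne
      subst e1
      obtain ⟨g1, g2, g3, g4, g5⟩ := hG
      cases l with
      | nil =>
        exfalso
        have := congrArg List.length e3
        simp only [text, List.length_nil, List.length_append, List.length_replicate] at this
        omega
      | cons bl l =>
        obtain ⟨b, m, w2⟩ := bl
        have hm : 4 * c.M ≤ m := g5.1
        obtain ⟨f1, f2, f3⟩ := M2 (D := c.D) (show w ++ (List.replicate m b ++ (w2 ++ text l)) = _
          from e3) g2 k1 (by omega) (by omega) (g4 b rfl).1 k3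
        subst f1
        subst f2
        obtain ⟨y2, hy2, h5, h6⟩ := hA b m w2 l (m - (c.M + z)) g5 (by omega) f3.symm
        refine ⟨y, hy, ?_, ?_⟩
        · rw [e2, Nat.add_mod_left, Nat.mod_eq_of_lt (hdiv y hy)]
        · show c.t y = c.pull w (c.pull (List.replicate m b) (c.pull w2 (c.Cv l j) + c.t (m / c.ω)))
          set k := (m - (c.M + z)) / c.M with hkdef
          have hq' : m - (c.M + z) = c.M * k + c.ω * y2 := by
            have := Nat.div_add_mod (m - (c.M + z)) c.M
            rw [h5] at this
            exact this.symm
          have hm1 : m = (c.M + z) + c.ω * (c.d * k + y2) := by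
            have h7 : c.ω * (c.d * k + y2) = c.M * k + c.ω * y2 := by unfold M; ring
            rw [h7]; omega
          have hmo : m / c.ω = (y2 + z / c.ω) + c.d * (1 + k) := by
            have h8 : m = c.ω * (y2 + c.d * (1 + k)) + z := by
              rw [hm1]; unfold M; ring
            rw [h8, Nat.mul_add_div hω]
            ring
          rw [hmo, c.sd_per, hv y2 hy2, ← h6, ← add_assoc, sd_two, zero_add]
          conv_rhs => rw [hm1]
          rw [c.sd_pow b (c.M + z) _ (by omega), ← pull_append]
          exact hty

end Cfg

theorem pSound : S_sound := by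
  intro α X c a n w l j q hG hq hqn hmem
  obtain ⟨u, hu, e, he, h⟩ := hmem
  obtain ⟨ks, hks, rfl⟩ := hu
  exact c.sd_A j e he ks hks a n w l q hG hq h.symm

end Pool.Agent.H668R2.SR
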