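import Mathlib
import Pool.Agent.H668R2.SR.Defs

set_option autoImplicit false

namespace Pool.Agent.H668R2.SR

open Pool.Agent.H936R2.SH

theorem per_congr {f : ℕ → ZMod 2} {N : ℕ} (h : ∀ x, f (x + N) = f x) {x x' : ℕ}
    (hx : x ≡ x' [MOD N]) : f x = f x' := by
  have h1 : Function.Periodic f N := h
  rw [← h1.map_mod_nat x, ← h1.map_mod_nat x', hx]

theorem IsCoord.congr {N1 N2 N3 : ℕ} {G : ℕ → ℕ → ℕ → ZMod 2} (h : IsCoord N1 N2 N3 G)
    {x x' y y' z z' : ℕ} (hx : x ≡ x' [MOD N1]) (hy : y ≡ y' [MOD N2]) (hz : z ≡ z' [MOD N3]) :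
    G x y z = G x' y' z' := by
  obtain ⟨h1, h2, h3, -, -⟩ := h
  have e1 : G x y z = G x' y z := per_congr (f := fun u => G u y z) (fun u => h1 u y z) hx
  have e2 : G x' y z = G x' y' z := per_congr (f := fun u => G x' u z) (fun u => h2 x' u z) hy
  have e3 : G x' y' z = G x' y' z' := per_congr (f := fun u => G x' y' u) (fun u => h3 x' y' u) hz
  rw [e1, e2, e3]

theorem pSys (h1 : S_coord) : S_sys := by
  intro X _
  classical
  have : Fintype X := Fintype.ofFinite X
  let e := Fintype.equivFin (X × Fin 3)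
  let N : X × Fin 3 → ℕ := fun i => Nat.nth Nat.Prime ((e i : ℕ) + 10)
  have hNp : ∀ i, (N i).Prime := fun i => Nat.prime_nth_prime _
  have hN8 : ∀ i, 8 ≤ N i := by
    intro i
    have := Nat.add_two_le_nth_prime ((e i : ℕ) + 10)
    change 8 ≤ Nat.nth Nat.Prime ((e i : ℕ) + 10)
    omega
  have hNodd : ∀ i, Odd (N i) := fun i => (hNp i).odd_of_ne_two (by have := hN8 i; omega)
  have hNcop : ∀ i j, i ≠ j → Nat.Coprime (N i) (N j) := by
    intro i j hij
    rw [Nat.coprime_primes (hNp i) (hNp j)]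
    intro h
    apply hij
    have := Nat.nth_injective Nat.infinite_setOfPred_prime h
    have h2 : (e i : ℕ) = (e j : ℕ) := by omega
    exact e.injective (Fin.ext h2)
  have hex : ∀ x : X, ∃ G, IsCoord (N (x, 0)) (N (x, 1)) (N (x, 2)) G := fun x =>
    h1 _ _ _ (hN8 _) (hN8 _) (hN8 _) (hNodd _) (hNodd _) (hNodd _)
  choose G hG using hex
  let d : ℕ := ∏ i, N i
  have hd : 0 < d := Finset.prod_pos fun i _ => (hNp i).pos
  have hdvd : ∀ i, N i ∣ d := fun i => Finset.dvd_prod_of_mem _ (Finset.mem_univ i)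
  let t : ℕ → X → ZMod 2 := fun n x => G x n n n
  let Y : Finset ℕ := (Finset.range d).filter fun y => ∀ i, y % N i < 2
  have hYmem : ∀ y, y ∈ Y ↔ y < d ∧ ∀ i, y % N i < 2 := by
    intro y
    simp [Y]
  have htY : ∀ y ∈ Y, ∀ x, t y x =
      ((y % N (x, 0) + y % N (x, 1) + y % N (x, 2) : ℕ) : ZMod 2) := by
    intro y hy x
    rw [hYmem] at hy
    have h2 := (hG x).2.2.2.1 _ (hy.2 (x, 0)) _ (hy.2 (x, 1)) _ (hy.2 (x, 2))
    rw [← h2]
    exact (hG x).congr (Nat.mod_modEq _ _).symm (Nat.mod_modEq _ _).symm (Nat.mod_modEq _ _).symm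
  have h0Y : 0 ∈ Y := by
    rw [hYmem]
    exact ⟨hd, fun i => by simp⟩
  have ht0 : t 0 = 0 := by
    funext x
    rw [htY 0 h0Y x]
    simp
  refine ⟨d, t, Y, ⟨hd, ?_, fun y hy => ((hYmem y).1 hy).1, h0Y, ht0, ?_⟩⟩
  · intro n
    funext x
    have h3 : ∀ i, n + d ≡ n [MOD N i] := by
      intro i
      have := (Nat.modEq_zero_iff_dvd.2 (hdvd i)).add_left n
      simpa using this
    exact (hG x).congr (h3 _) (h3 _) (h3 _)
  · intro l j
    have hwin := fun x => (hG x).2.2.2.2 (l + d - 1) (l + d - 1) (l + d - 1) (j x)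
    have hl : l + d - 1 + 1 = l + d := by omega
    rw [hl] at hwin
    choose a1 ha1 a2 ha2 a3 ha3 hpar g hg using hwin
    let a : X × Fin 3 → ℕ := fun i => ![a1 i.1, a2 i.1, a3 i.1] i.2
    have ha : ∀ i, a i < 2 := by
      rintro ⟨x, i⟩
      fin_cases i
      · exact ha1 x
      · exact ha2 x
      · exact ha3 x
    have hne : ∀ i ∈ (Finset.univ : Finset (X × Fin 3)), N i ≠ 0 := fun i _ => (hNp i).pos.ne'
    have hpw : Set.Pairwise (↑(Finset.univ : Finset (X × Fin 3)))
        (Function.onFun Nat.Coprime N) := fun i _ j _ hij => hNcop i j hij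
    let y := (Nat.chineseRemainderOfFinset a N Finset.univ hne hpw : ℕ)
    have hylt : y < d := Nat.chineseRemainderOfFinset_lt_prod a N hne hpw
    have hya : ∀ i, y ≡ a i [MOD N i] := fun i =>
      (Nat.chineseRemainderOfFinset a N Finset.univ hne hpw).2 i (Finset.mem_univ i)
    have hymod : ∀ i, y % N i = a i := by
      intro i
      have h5 : y % N i = a i % N i := hya i
      rw [h5, Nat.mod_eq_of_lt]
      have := ha i
      have := hN8 i
      omega
    have hyY : y ∈ Y := by
      rw [hYmem]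
      refine ⟨hylt, fun i => ?_⟩
      rw [hymod]
      exact ha i
    refine ⟨y, hyY, ?_, (l + d - y) % d, Nat.mod_lt _ hd, ?_, ?_⟩
    · funext x
      rw [htY y hyY x, hymod, hymod, hymod]
      exact hpar x
    · have h6 : y + (l + d - y) % d ≡ y + (l + d - y) [MOD d] :=
        (Nat.mod_modEq _ _).add_left y
      have h7 : y + (l + d - y) = l + d := by omega
      rw [h7] at h6
      have h8 : l + d ≡ l [MOD d] := by
        have : l + d ≡ l + 0 [MOD d] := (Nat.modEq_zero_iff_dvd.2 dvd_rfl).add_left l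
        simpa using this
      exact h6.trans h8
    · set z := (l + d - y) % d with hz
      have hzmod : ∀ i, z + a i ≡ l + d [MOD N i] := by
        intro i
        have h6 : z ≡ l + d - y [MOD N i] := (Nat.mod_modEq (l + d - y) d).of_dvd (hdvd i)
        have h7 : z + y ≡ l + d - y + y [MOD N i] := h6.add_right y
        have h8 : l + d - y + y = l + d := by omega
        rw [h8] at h7
        exact ((hya i).symm.add_left z).trans h7
      have hdN : ∀ i, N i ≤ d := fun i => Nat.le_of_dvd hd (hdvd i)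
      have hkey : ∀ y', ∀ i, y' + z ≡ l + d - a i + y' % N i [MOD N i] := by
        intro y' i
        apply Nat.ModEq.add_right_cancel' (a i)
        have h9 : l + d - a i + y' % N i + a i = y' % N i + (l + d) := by
          have := ha i
          have := hN8 i
          have := hdN i
          omega
        rw [h9, add_assoc]
        exact ((Nat.mod_modEq y' (N i)).symm).add (hzmod i)
      have hval : ∀ y' ∈ Y, ∀ x, t (y' + z) x = g x + t y' x := by
        intro y' hy' x
        rw [htY y' hy' x]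
        have hy2 := ((hYmem y').1 hy').2
        rw [← hg x _ (hy2 (x, 0)) _ (hy2 (x, 1)) _ (hy2 (x, 2))]
        exact (hG x).congr (hkey y' (x, 0)) (hkey y' (x, 1)) (hkey y' (x, 2))
      have hz0 : ∀ x, t z x = g x := by
        intro x
        have := hval 0 h0Y x
        rw [zero_add, ht0, Pi.zero_apply, add_zero] at this
        exact this
      intro y' hy'
      funext x
      rw [Pi.add_apply, hval y' hy' x, hz0 x, add_comm]

end Pool.Agent.H668R2.SR
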