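import Mathlib
import Pool.Agent.H668R2.SR.Defs

set_option autoImplicit false

namespace Pool.Agent.H668R2.SR

open Pool.Agent.H936R2.SH

/-- The table, coded by the binary digits of one number (bit `16 i + 4 j + n` is the entry
`T i j n`). -/
def tabBit (i : ℕ) : Bool := Nat.testBit 4599596688078291002 i

/-- The configuration on `(ℤ/8)³`, with values `true`/`false` for `1`/`0`. -/
def psi (a b c : ZMod 8) : Bool :=
  Bool.xor (tabBit (16 * (a.val % 4) + 4 * (b.val % 4) + c.val % 4))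
    (Nat.testBit (a.val / 4 + b.val / 4 + c.val / 4) 0)

theorem psi_x : ∀ a b c : ZMod 8, psi (a + 4) b c = !(psi a b c) := by decide +kernel

theorem psi_y : ∀ a b c : ZMod 8, psi a (b + 4) c = !(psi a b c) := by decide +kernel

theorem psi_z : ∀ a b c : ZMod 8, psi a b (c + 4) = !(psi a b c) := by decide +kernel

theorem psi_ax : ∀ a b c : ZMod 8, (psi (a + 1) b c = psi a b c ∧ psi (a - 1) b c = psi a b c) ∨
    (psi a (b + 1) c = psi a b c ∧ psi a (b - 1) c = psi a b c) ∨
    (psi a b (c + 1) = psi a b c ∧ psi a b (c - 1) = psi a b c) := by decide +kernel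

/-- `Bool` to `ZMod 2`. -/
def toZ (b : Bool) : ZMod 2 := if b then 1 else 0

theorem toZ_not (b : Bool) : toZ (!b) = toZ b + 1 := by revert b; decide

theorem pTab : S_tab := by
  refine ⟨fun x y z => toZ (psi (x : ZMod 8) (y : ZMod 8) (z : ZMod 8)), ?_, ?_, ?_, ?_, ?_⟩
  · intro x y z
    have h := psi_x (x : ZMod 8) (y : ZMod 8) (z : ZMod 8)
    simp only [Int.cast_add, Int.cast_ofNat, h, toZ_not]
  · intro x y z
    have h := psi_y (x : ZMod 8) (y : ZMod 8) (z : ZMod 8)
    simp only [Int.cast_add, Int.cast_ofNat, h, toZ_not]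
  · intro x y z
    have h := psi_z (x : ZMod 8) (y : ZMod 8) (z : ZMod 8)
    simp only [Int.cast_add, Int.cast_ofNat, h, toZ_not]
  · simp only [Int.cast_zero]
    decide +kernel
  · intro x y z
    have h := psi_ax (x : ZMod 8) (y : ZMod 8) (z : ZMod 8)
    simp only [Int.cast_add, Int.cast_sub, Int.cast_one]
    rcases h with ⟨h1, h2⟩ | ⟨h1, h2⟩ | ⟨h1, h2⟩
    · exact Or.inl ⟨by rw [h1], by rw [h2]⟩
    · exact Or.inr (Or.inl ⟨by rw [h1], by rw [h2]⟩)
    · exact Or.inr (Or.inr ⟨by rw [h1], by rw [h2]⟩)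

end Pool.Agent.H668R2.SR
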